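import Pool.Agent.X83.QM.Pot

open MeasureTheory Filter Topology Set
open scoped ENNReal Real

namespace Pool.Agent.X83.QM

/-- The Joukowski-type parametrization. -/
noncomputable def hh (θ : ℝ) : ℝ := (1 + Real.cos θ) / 2

theorem measurable_hh : Measurable hh := by unfold hh; fun_prop

theorem hh_mem (θ : ℝ) : hh θ ∈ Icc (0 : ℝ) 1 := by
  unfold hh
  constructor <;> linarith [Real.neg_one_le_cos θ, Real.cos_le_one θ]

/-- The arcsine law on `[0,1]`. -/
noncomputable def arc : Measure ℝ :=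
  ENNReal.ofReal (π⁻¹) • (volume.restrict (Icc 0 π)).map hh

theorem hh_dist' {θ φ : ℝ} (hθ : θ ∈ Icc 0 π) (hφ : φ ∈ Icc 0 π) (hle : θ ≤ φ) :
    ((φ - θ) / π) ^ 2 ≤ |hh θ - hh φ| := by
  have hpi := Real.pi_pos
  set s := (θ + φ) / 2 with hs
  set t := (φ - θ) / 2 with ht
  have h1 : hh θ - hh φ = Real.sin s * Real.sin t := by
    unfold hh
    have : Real.cos θ - Real.cos φ = 2 * Real.sin s * Real.sin t := by
      rw [Real.cos_sub_cos, hs, ht]
      have : Real.sin ((φ - θ) / 2) = -Real.sin ((θ - φ) / 2) := by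
        rw [← Real.sin_neg]; congr 1; ring
      rw [this]; ring
    linarith
  have ht0 : 0 ≤ t := by rw [ht]; linarith
  have ht1 : t ≤ π / 2 := by rw [ht]; linarith [hθ.1, hφ.2]
  have hst : t ≤ s := by rw [ht, hs]; linarith [hθ.1]
  have hst' : s ≤ π - t := by rw [ht, hs]; linarith [hφ.2]
  have h2 : 2 / π * t ≤ Real.sin t := Real.mul_le_sin ht0 ht1
  have h3 : Real.sin t ≤ Real.sin s := by
    rcases le_total s (π / 2) with h | h
    · exact Real.sin_le_sin_of_le_of_le_pi_div_two (by linarith) h hst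
    · rw [← Real.sin_pi_sub s]
      exact Real.sin_le_sin_of_le_of_le_pi_div_two (by linarith) (by linarith) (by linarith)
  have h4 : 0 ≤ 2 / π * t := by positivity
  have h5 : (φ - θ) / π = 2 / π * t := by rw [ht]; ring
  rw [h1, h5, abs_of_nonneg (mul_nonneg (by linarith) (by linarith)), sq]
  exact mul_le_mul (h2.trans h3) h2 h4 (by linarith)

theorem hh_dist {θ φ : ℝ} (hθ : θ ∈ Icc 0 π) (hφ : φ ∈ Icc 0 π) :
    |θ - φ| ≤ π * √|hh θ - hh φ| := by
  have hpi := Real.pi_pos
  have key : ∀ θ φ : ℝ, θ ∈ Icc 0 π → φ ∈ Icc 0 π → θ ≤ φ → |θ - φ| ≤ π * √|hh θ - hh φ| := by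
    intro θ φ hθ hφ h
    rw [abs_of_nonpos (by linarith), ← div_le_iff₀' hpi]
    apply Real.le_sqrt_of_sq_le
    have := hh_dist' hθ hφ h
    rwa [neg_sub]
  rcases le_total θ φ with h | h
  · exact key θ φ hθ hφ h
  · rw [abs_sub_comm, abs_sub_comm (hh θ)]
    exact key φ θ hφ hθ h

theorem arc_apply {s : Set ℝ} (hs : MeasurableSet s) :
    arc s = ENNReal.ofReal (π⁻¹) * volume (hh ⁻¹' s ∩ Icc 0 π) := by
  unfold arc
  rw [Measure.smul_apply, Measure.map_apply measurable_hh hs,
    Measure.restrict_apply (measurable_hh hs), smul_eq_mul]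

theorem pi_inv_mul : ENNReal.ofReal π⁻¹ * ENNReal.ofReal π = 1 := by
  rw [← ENNReal.ofReal_mul (by positivity), inv_mul_cancel₀ Real.pi_ne_zero, ENNReal.ofReal_one]

instance : IsProbabilityMeasure arc := by
  constructor
  rw [arc_apply MeasurableSet.univ, preimage_univ, univ_inter, Real.volume_Icc, sub_zero,
    pi_inv_mul]

theorem arc_compl : arc (Icc 0 1)ᶜ = 0 := by
  rw [arc_apply measurableSet_Icc.compl]
  have : hh ⁻¹' (Icc 0 1)ᶜ = ∅ := by
    ext θ; simp only [mem_preimage, mem_compl_iff, mem_empty_iff_false, iff_false, not_not]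
    exact hh_mem θ
  rw [this]; simp

theorem arc_Icc (a b : ℝ) (_ : a ≤ b) : arc (Icc a b) ≤ ENNReal.ofReal (√(b - a)) := by
  rw [arc_apply measurableSet_Icc]
  have h1 : volume (hh ⁻¹' Icc a b ∩ Icc 0 π) ≤ ENNReal.ofReal (π * √(b - a)) := by
    refine (Real.volume_le_diam _).trans (Metric.ediam_le ?_)
    rintro θ ⟨hθ, hθ'⟩ φ ⟨hφ, hφ'⟩
    rw [edist_dist, Real.dist_eq]
    apply ENNReal.ofReal_le_ofReal
    refine (hh_dist hθ' hφ').trans ?_
    gcongr
    rw [abs_le]
    constructor <;> linarith [hθ.1, hθ.2, hφ.1, hφ.2]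
  calc _ ≤ ENNReal.ofReal π⁻¹ * ENNReal.ofReal (π * √(b - a)) := by gcongr
    _ = _ := by
      rw [ENNReal.ofReal_mul Real.pi_pos.le, ← mul_assoc, pi_inv_mul, one_mul]

instance : NullSingletonClass arc := by
  constructor
  intro x
  have := arc_Icc x x le_rfl
  simpa using this

/-- The logarithmic factor. -/
noncomputable def ph (a : ℂ) (θ : ℝ) : ℝ := Real.log ‖circleMap 0 1 θ - a‖

theorem ph_int (a : ℂ) : IntervalIntegrable (ph a) volume 0 (2 * π) :=
  circleIntegrable_log_norm_sub_const (a := a) (c := 0) 1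

theorem ph_integral (a : ℂ) (ha : ‖a‖ = 1) : ∫ θ in (0)..(2 * π), ph a θ = 0 := by
  have h := circleAverage_log_norm_sub_const₁ ha
  rw [Real.circleAverage_def, smul_eq_mul, mul_eq_zero] at h
  rcases h with h | h
  · exfalso
    have := Real.pi_pos
    have h2 : (2 * π)⁻¹ ≠ 0 := by positivity
    exact h2 h
  · exact h

theorem ph_int1 (a : ℂ) : IntervalIntegrable (ph a) volume 0 π := by
  apply (ph_int a).mono_set
  rw [uIcc_of_le Real.pi_pos.le, uIcc_of_le (by linarith [Real.pi_pos])]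
  exact Icc_subset_Icc_right (by linarith [Real.pi_pos])

theorem ph_int2 (a : ℂ) : IntervalIntegrable (ph a) volume π (2 * π) := by
  apply (ph_int a).mono_set
  rw [uIcc_of_le (by linarith [Real.pi_pos]), uIcc_of_le (by linarith [Real.pi_pos])]
  exact Icc_subset_Icc_left Real.pi_pos.le

theorem circ (θ : ℝ) : circleMap 0 1 θ = (Real.cos θ : ℂ) + (Real.sin θ : ℂ) * Complex.I := by
  rw [circleMap, zero_add, Complex.ofReal_one, one_mul, Complex.exp_mul_I]
  simp

theorem ph_conj (α θ : ℝ) : ph (circleMap 0 1 (-α)) θ = ph (circleMap 0 1 α) (2 * π - θ) := by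
  unfold ph
  congr 1
  rw [← Complex.norm_conj]
  congr 1
  rw [map_sub, circ, circ, circ, circ, map_add, map_add, map_mul, map_mul, Complex.conj_ofReal,
    Complex.conj_ofReal, Complex.conj_ofReal, Complex.conj_ofReal, Complex.conj_I,
    Real.cos_two_pi_sub, Real.sin_two_pi_sub, Real.cos_neg, Real.sin_neg]
  push_cast
  ring

theorem ph_sum (α : ℝ) : ∫ θ in (0)..π, (ph (circleMap 0 1 α) θ + ph (circleMap 0 1 (-α)) θ) = 0 := by
  rw [intervalIntegral.integral_add (ph_int1 _) (ph_int1 _)]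
  have h1 : ∫ θ in (0)..π, ph (circleMap 0 1 (-α)) θ = ∫ θ in π..(2 * π), ph (circleMap 0 1 α) θ := by
    simp_rw [ph_conj]
    rw [intervalIntegral.integral_comp_sub_left (fun θ => ph (circleMap 0 1 α) θ) (2 * π)]
    congr 1 <;> ring
  rw [h1, intervalIntegral.integral_add_adjacent_intervals (ph_int1 _) (ph_int2 _)]
  apply ph_integral
  simp

theorem ph_prod {α θ : ℝ} (h : Real.cos θ ≠ Real.cos α) :
    ph (circleMap 0 1 α) θ + ph (circleMap 0 1 (-α)) θ = Real.log (2 * |Real.cos θ - Real.cos α|) := by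
  have hne : ∀ β : ℝ, Real.cos β = Real.cos α → circleMap 0 1 θ - circleMap 0 1 β ≠ 0 := by
    intro β hβ h0
    rw [sub_eq_zero, circ, circ] at h0
    have := congrArg Complex.re h0
    simp only [Complex.add_re, Complex.ofReal_re, Complex.mul_re, Complex.I_re, mul_zero,
      Complex.ofReal_im, Complex.I_im, mul_one, sub_self, add_zero] at this
    exact h (this.trans hβ)
  unfold ph
  rw [← Real.log_mul (norm_ne_zero_iff.2 (hne α rfl)) (norm_ne_zero_iff.2 (hne (-α) (Real.cos_neg α))),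
    ← norm_mul]
  congr 1
  have e : (circleMap 0 1 θ - circleMap 0 1 α) * (circleMap 0 1 θ - circleMap 0 1 (-α)) =
      ((2 * (Real.cos θ - Real.cos α) : ℝ) : ℂ) * circleMap 0 1 θ := by
    rw [circ, circ, circ, Real.cos_neg, Real.sin_neg]
    push_cast
    have h1 : (Real.cos θ : ℂ) ^ 2 + (Real.sin θ : ℂ) ^ 2 = 1 := by
      exact_mod_cast Real.cos_sq_add_sin_sq θ
    have h2 : (Real.cos α : ℂ) ^ 2 + (Real.sin α : ℂ) ^ 2 = 1 := by
      exact_mod_cast Real.cos_sq_add_sin_sq α
    have hI : Complex.I ^ 2 = -1 := Complex.I_sq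
    push_cast at h1 h2
    linear_combination (-1 : ℂ) * h1 + (1 : ℂ) * h2 + (Complex.sin θ ^ 2 - Complex.sin α ^ 2) * hI
  rw [e, norm_mul, Complex.norm_real, norm_circleMap_zero]
  simp [abs_mul]

theorem arc_pot {x : ℝ} (hx : x ∈ Icc (0 : ℝ) 1) : ∫⁻ y, ker (x - y) ∂arc ≤ 2 * bb := by
  have hpi := Real.pi_pos
  set α := Real.arccos (2 * x - 1) with hα
  have hcos : Real.cos α = 2 * x - 1 := Real.cos_arccos (by linarith [hx.1]) (by linarith [hx.2])
  have hα0 : 0 ≤ α := Real.arccos_nonneg _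
  have hα1 : α ≤ π := Real.arccos_le_pi _
  have hk : Measurable fun y => ker (x - y) :=
    measurable_ker.comp (measurable_const.sub measurable_id)
  unfold arc
  rw [lintegral_smul_measure, lintegral_map hk measurable_hh, smul_eq_mul]
  set G : ℝ → ℝ := fun θ => ph (circleMap 0 1 α) θ + ph (circleMap 0 1 (-α)) θ with hG
  have hGint : IntervalIntegrable G volume 0 π := (ph_int1 _).add (ph_int1 _)
  have hlog4 : Real.log 4 = 2 * Real.log 2 := by
    rw [show (4 : ℝ) = 2 ^ 2 by norm_num, Real.log_pow]; norm_num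
  have hne : ∀ᵐ θ ∂(volume.restrict (Icc 0 π)), ker (x - hh θ) = ENNReal.ofReal (Real.log 4 - G θ) ∧
      0 ≤ Real.log 4 - G θ := by
    have h1 : ∀ᵐ θ ∂(volume.restrict (Icc 0 π)), θ ∈ Icc 0 π := ae_restrict_mem measurableSet_Icc
    have h2 : ∀ᵐ θ ∂(volume.restrict (Icc 0 π)), θ ≠ α :=
      ae_restrict_of_ae (by rw [ae_iff]; simp)
    filter_upwards [h1, h2] with θ hθ hθα
    have hc : Real.cos θ ≠ Real.cos α := fun h =>
      hθα (Real.injOn_cos hθ ⟨hα0, hα1⟩ h)
    have e1 : x - hh θ = -(Real.cos θ - Real.cos α) / 2 := by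
      unfold hh; rw [hcos]; ring
    have hne0 : x - hh θ ≠ 0 := by
      rw [e1]; intro h0; apply hc; linarith
    have e2 : G θ = Real.log (2 * |Real.cos θ - Real.cos α|) := ph_prod hc
    have hpos : 0 < |Real.cos θ - Real.cos α| := abs_pos.2 (sub_ne_zero.2 hc)
    have e3 : -Real.log |x - hh θ| = Real.log 4 - G θ := by
      rw [e1, abs_div, abs_neg, abs_two, e2, Real.log_div hpos.ne' (by norm_num),
        Real.log_mul (by norm_num) hpos.ne', hlog4]
      ring
    constructor
    · unfold ker; rw [if_neg hne0, e3]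
    · rw [← e3, neg_nonneg]
      apply Real.log_nonpos (abs_nonneg _)
      have := hh_mem θ
      rw [abs_le]
      constructor <;> linarith [this.1, this.2, hx.1, hx.2]
  have h3 : ∫⁻ θ in Icc 0 π, ker (x - hh θ) = ENNReal.ofReal (∫ θ in Icc 0 π, (Real.log 4 - G θ)) := by
    rw [ofReal_integral_eq_lintegral_ofReal]
    · apply lintegral_congr_ae
      filter_upwards [hne] with θ h using h.1
    · rw [← IntegrableOn, ← intervalIntegrable_iff_integrableOn_Icc_of_le hpi.le]
      exact (intervalIntegrable_const).sub hGint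
    · filter_upwards [hne] with θ h using h.2
  have h4 : ∫ θ in Icc 0 π, (Real.log 4 - G θ) = π * Real.log 4 := by
    rw [integral_Icc_eq_integral_Ioc, ← intervalIntegral.integral_of_le hpi.le,
      intervalIntegral.integral_sub intervalIntegrable_const hGint, hG, ph_sum]
    simp
  rw [h3, h4, hlog4, ← ENNReal.ofReal_mul (by positivity)]
  apply le_of_eq
  unfold bb
  rw [show π⁻¹ * (π * (2 * Real.log 2)) = 2 * Real.log 2 by field_simp,
    ENNReal.ofReal_mul (by norm_num)]
  norm_num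

end Pool.Agent.X83.QM
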