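import Pool.Agent.X83.QM.Rec
import Pool.Agent.X83.QM.Arc

open MeasureTheory Filter Topology Set
open scoped ENNReal Real

namespace Pool.Agent.X83.QM

theorem exists_rho {μ : Measure ℝ} (hμ : IsMinkowski μ) {ε : ℝ} (hε : 0 < ε) :
    ∃ ρ : Measure ℝ, IsProbabilityMeasure ρ ∧ ρ (Icc 0 1)ᶜ = 0 ∧
      (∃ W : ℝ≥0∞, W ≠ ⊤ ∧ ρ ≤ W • μ) ∧
      ∀ x ∈ Icc (0 : ℝ) 1, ∫⁻ y, ker (x - y) ∂ρ ≤ ENNReal.ofReal (Real.log 4 + ε) := by
  obtain ⟨ρ, h1, h2, h3, h4⟩ := exists_cmp hμ arc arc_compl (fun x hx => arc_pot hx) arc_Icc hε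
  refine ⟨ρ, h1, h2, h3, fun x hx => (h4 x hx).trans (le_of_eq ?_)⟩
  have hlog4 : Real.log 4 = 2 * Real.log 2 := by
    rw [show (4 : ℝ) = 2 ^ 2 by norm_num, Real.log_pow]; norm_num
  have h0 := Real.log_nonneg (x := 2) (by norm_num)
  rw [ENNReal.ofReal_add (by rw [hlog4]; positivity) hε.le, hlog4,
    ENNReal.ofReal_mul (by norm_num), bb]
  norm_num

theorem le_capK {K : Set ℝ} (ν : Measure ℝ) [IsProbabilityMeasure ν] (hK : ν Kᶜ = 0)
    (h01 : ν (Icc 0 1)ᶜ = 0) (hna : ∀ x, ν {x} = 0) {E : ℝ} (hE : 0 ≤ E)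
    (hpot : ∀ x ∈ Icc (0 : ℝ) 1, ∫⁻ y, ker (x - y) ∂ν ≤ ENNReal.ofReal E) :
    ENNReal.ofReal (Real.exp (-E)) ≤ capK K := by
  have hmem : ∀ᵐ x ∂ν, x ∈ Icc (0 : ℝ) 1 := by rw [ae_iff]; exact h01
  have hmeas : Measurable fun p : ℝ × ℝ => Real.log |p.1 - p.2| := by fun_prop
  have hmem1 : ∀ᵐ p ∂(ν.prod ν), p.1 ∈ Icc (0 : ℝ) 1 :=
    Measure.quasiMeasurePreserving_fst.ae hmem
  have hmem2 : ∀ᵐ p ∂(ν.prod ν), p.2 ∈ Icc (0 : ℝ) 1 :=
    Measure.quasiMeasurePreserving_snd.ae hmem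
  have hle : ∀ᵐ p ∂(ν.prod ν), ENNReal.ofReal (-Real.log |p.1 - p.2|) ≤ ker (p.1 - p.2) ∧
      0 ≤ -Real.log |p.1 - p.2| := by
    filter_upwards [hmem1, hmem2] with p h1 h2
    constructor
    · unfold ker
      split_ifs with h
      · exact le_top
      · exact le_rfl
    · rw [neg_nonneg]
      apply Real.log_nonpos (abs_nonneg _)
      rw [abs_le]; constructor <;> linarith [h1.1, h1.2, h2.1, h2.2]
  have hen : ∫⁻ p, ENNReal.ofReal (-Real.log |p.1 - p.2|) ∂(ν.prod ν) ≤ ENNReal.ofReal E := by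
    calc _ ≤ ∫⁻ p : ℝ × ℝ, ker (p.1 - p.2) ∂(ν.prod ν) := by
          apply lintegral_mono_ae
          filter_upwards [hle] with p h using h.1
      _ = ∫⁻ x, ∫⁻ y, ker (x - y) ∂ν ∂ν := by
          have hk : Measurable fun p : ℝ × ℝ => ker (p.1 - p.2) :=
            measurable_ker.comp (measurable_fst.sub measurable_snd)
          rw [lintegral_prod _ hk.aemeasurable]
      _ ≤ ∫⁻ _, ENNReal.ofReal E ∂ν := by
          apply lintegral_mono_ae
          filter_upwards [hmem] with x hx using hpot x hx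
      _ = _ := by simp
  have hint : Integrable (fun p : ℝ × ℝ => Real.log |p.1 - p.2|) (ν.prod ν) := by
    refine ⟨hmeas.aestronglyMeasurable, ?_⟩
    unfold HasFiniteIntegral
    refine lt_of_le_of_lt ?_ (ENNReal.ofReal_lt_top (r := E))
    refine le_trans (lintegral_mono_ae ?_) hen
    filter_upwards [hle] with p h
    rw [← enorm_neg, Real.enorm_of_nonneg h.2]
  have hval : -E ≤ ∫ p : ℝ × ℝ, Real.log |p.1 - p.2| ∂(ν.prod ν) := by
    have h1 : ∫ p : ℝ × ℝ, -Real.log |p.1 - p.2| ∂(ν.prod ν) ≤ E := by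
      rw [integral_eq_lintegral_of_nonneg_ae]
      · exact ENNReal.toReal_le_of_le_ofReal hE hen
      · filter_upwards [hle] with p h using h.2
      · exact hmeas.neg.aestronglyMeasurable
    rw [integral_neg] at h1
    linarith
  refine le_trans (ENNReal.ofReal_le_ofReal (Real.exp_le_exp.2 hval)) ?_
  unfold capK
  exact le_iSup₂_of_le ν inferInstance (le_iSup₂_of_le hK hna (le_iSup_of_le hint le_rfl))

theorem le_capB {μ : Measure ℝ} (hμ : IsMinkowski μ) {B : Set ℝ} (hB : MeasurableSet B)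
    (hμB : μ Bᶜ = 0) {ε : ℝ} (hε : 0 < ε) (hε1 : ε < 1) :
    ENNReal.ofReal (Real.exp (-((Real.log 4 + ε) / (1 - ε)))) ≤ capB B := by
  obtain ⟨ρ, h1, h2, ⟨W, hW, h3⟩, h4⟩ := exists_rho hμ hε
  have hρ0 : ∀ s, μ s = 0 → ρ s = 0 := by
    intro s hs
    have := h3 s
    rw [Measure.smul_apply, hs, smul_zero] at this
    exact nonpos_iff_eq_zero.1 this
  have hρB : ρ B = 1 := by
    rw [← prob_compl_eq_zero_iff hB]; exact hρ0 _ hμB
  have hna := hμ.noAtoms
  obtain ⟨K, hKB, hK, hlt⟩ := hB.exists_isCompact_lt_add (measure_ne_top ρ B)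
    (ε := ENNReal.ofReal ε) (by simpa using hε)
  rw [hρB] at hlt
  have hge : ENNReal.ofReal (1 - ε) ≤ ρ K := by
    rw [ENNReal.ofReal_sub _ hε.le, ENNReal.ofReal_one]
    exact tsub_le_iff_right.2 hlt.le
  have hpos : 0 < ENNReal.ofReal (1 - ε) := by
    rw [ENNReal.ofReal_pos]; linarith
  have hK0 : ρ K ≠ 0 := (lt_of_lt_of_le hpos hge).ne'
  set ν := ProbabilityTheory.cond ρ K with hν
  have hνp : IsProbabilityMeasure ν := ProbabilityTheory.cond_isProbabilityMeasure hK0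
  have hνle : ν ≤ (ENNReal.ofReal (1 - ε))⁻¹ • ρ := by
    rw [hν, ProbabilityTheory.cond]
    intro s
    rw [Measure.smul_apply, Measure.smul_apply, smul_eq_mul, smul_eq_mul]
    gcongr
    exact Measure.restrict_le_self
  have hνac : ∀ s, ρ s = 0 → ν s = 0 := by
    intro s hs
    have := hνle s
    rw [Measure.smul_apply, hs, smul_zero] at this
    exact nonpos_iff_eq_zero.1 this
  have hlog4 : 0 ≤ Real.log 4 := Real.log_nonneg (by norm_num)
  have h1ε : 0 < 1 - ε := by linarith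
  refine le_trans (le_capK (K := K) ν ?_ (hνac _ h2) ?_ (by positivity) ?_) ?_
  · rw [hν, ProbabilityTheory.cond, Measure.smul_apply,
      Measure.restrict_apply hK.measurableSet.compl]
    simp
  · intro x
    exact hνac _ (hρ0 _ (measure_singleton x))
  · intro x hx
    calc ∫⁻ y, ker (x - y) ∂ν ≤ ∫⁻ y, ker (x - y) ∂((ENNReal.ofReal (1 - ε))⁻¹ • ρ) :=
          lintegral_mono' hνle le_rfl
      _ = (ENNReal.ofReal (1 - ε))⁻¹ * ∫⁻ y, ker (x - y) ∂ρ := by
          rw [lintegral_smul_measure]; rfl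
      _ ≤ (ENNReal.ofReal (1 - ε))⁻¹ * ENNReal.ofReal (Real.log 4 + ε) := by
          gcongr; exact h4 x hx
      _ = _ := by
          rw [← ENNReal.ofReal_inv_of_pos h1ε, ← ENNReal.ofReal_mul (by positivity)]
          congr 1; field_simp
  · unfold capB
    exact le_iSup₂_of_le K hK (le_iSup_of_le hKB le_rfl)

theorem le_minCap {μ : Measure ℝ} (hμ : IsMinkowski μ) : ENNReal.ofReal (1 / 4) ≤ minCap μ := by
  unfold minCap
  refine le_iInf fun B => le_iInf fun hB => le_iInf fun hμB => ?_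
  have h1 : Tendsto (fun ε : ℝ => ENNReal.ofReal (Real.exp (-((Real.log 4 + ε) / (1 - ε)))))
      (𝓝[>] 0) (𝓝 (ENNReal.ofReal (1 / 4))) := by
    have e : (1 / 4 : ℝ) = Real.exp (-((Real.log 4 + 0) / (1 - 0))) := by
      rw [add_zero, sub_zero, div_one, Real.exp_neg, Real.exp_log (by norm_num)]; norm_num
    rw [e]
    apply ENNReal.tendsto_ofReal
    have : ContinuousAt (fun ε : ℝ => Real.exp (-((Real.log 4 + ε) / (1 - ε)))) 0 := by
      apply Real.continuous_exp.continuousAt.comp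
      apply ContinuousAt.neg
      apply ContinuousAt.div (by fun_prop) (by fun_prop) (by norm_num)
    exact this.tendsto.mono_left nhdsWithin_le_nhds
  apply le_of_tendsto h1
  have : Ioo (0 : ℝ) 1 ∈ 𝓝[>] (0 : ℝ) := Ioo_mem_nhdsGT one_pos
  filter_upwards [this] with ε hε
  exact le_capB hμ hB hμB hε.1 hε.2

end Pool.Agent.X83.QM
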