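import Pool.Agent.X83.QM.Arc

open MeasureTheory Filter Topology Set
open scoped ENNReal Real

namespace Pool.Agent.X83.QM

/-- The angle. -/
noncomputable def th (x : ℝ) : ℝ := Real.arccos (2 * x - 1)

theorem cont_th : Continuous th := by unfold th; fun_prop

theorem cos_th {x : ℝ} (hx : x ∈ Icc (0 : ℝ) 1) : Real.cos (th x) = 2 * x - 1 :=
  Real.cos_arccos (by linarith [hx.1]) (by linarith [hx.2])

/-- The terms. -/
noncomputable def SS (r : ℝ) (n : ℕ) (p : ℝ × ℝ) : ℝ :=
  2 * (r ^ n / n) * (Real.cos (n * th p.1) * Real.cos (n * th p.2))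

theorem cont_SS (r : ℝ) (n : ℕ) : Continuous (SS r n) := by
  have := cont_th
  unfold SS; fun_prop

theorem SS_bound {r : ℝ} (h0 : 0 ≤ r) (n : ℕ) (p : ℝ × ℝ) : ‖SS r n p‖ ≤ 2 * r ^ n := by
  unfold SS
  rw [Real.norm_eq_abs, abs_mul, abs_mul, abs_mul, abs_two]
  have h1 : |r ^ n / n| ≤ r ^ n := by
    rw [abs_of_nonneg (by positivity)]
    rcases Nat.eq_zero_or_pos n with h | h
    · subst h; simp
    · apply div_le_self (by positivity)
      exact_mod_cast h
  have h2 := Real.abs_cos_le_one (n * th p.1)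
  have h3 := Real.abs_cos_le_one (n * th p.2)
  have h4 : |Real.cos (n * th p.1)| * |Real.cos (n * th p.2)| ≤ 1 :=
    mul_le_one₀ h2 (abs_nonneg _) h3
  calc 2 * |r ^ n / n| * (|Real.cos (n * th p.1)| * |Real.cos (n * th p.2)|)
      ≤ 2 * r ^ n * 1 := by gcongr
    _ = _ := by ring

theorem summ {r : ℝ} (h0 : 0 ≤ r) (h1 : r < 1) : Summable fun n : ℕ => 2 * r ^ n :=
  (summable_geometric_of_lt_one h0 h1).mul_left 2

/-- The logarithm of the regularized factor. -/
theorem hasSum_log {r : ℝ} (h0 : 0 ≤ r) (h1 : r < 1) (α : ℝ) :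
    HasSum (fun n : ℕ => r ^ n / n * Real.cos (n * α))
      (-Real.log ‖1 - (r : ℂ) * Complex.exp (α * Complex.I)‖) := by
  set z : ℂ := (r : ℂ) * Complex.exp (α * Complex.I) with hz
  have hzn : ‖z‖ < 1 := by
    rw [hz, norm_mul, Complex.norm_exp_ofReal_mul_I, mul_one, Complex.norm_real, Real.norm_eq_abs,
      abs_of_nonneg h0]
    exact h1
  have h := Complex.hasSum_taylorSeries_neg_log hzn
  have h2 := (Complex.hasSum_re h)
  rw [Complex.neg_re, Complex.log_re] at h2
  convert h2 using 1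
  funext n
  rw [hz, mul_pow, ← Complex.exp_nat_mul]
  have e : ((r : ℂ) ^ n * Complex.exp (n * (α * Complex.I)) / n) =
      ((r ^ n / n : ℝ) : ℂ) * Complex.exp (((n * α : ℝ) : ℂ) * Complex.I) := by
    push_cast
    rw [mul_assoc]; ring
  rw [e, Complex.re_ofReal_mul, Complex.exp_ofReal_mul_I_re]

/-- Comparison of the factor with the regularized one. -/
theorem reg {r : ℝ} (h0 : 0 ≤ r) (h1 : r < 1) (α : ℝ) :
    ‖1 - Complex.exp (α * Complex.I)‖ ≤ 2 / (1 + r) * ‖1 - (r : ℂ) * Complex.exp (α * Complex.I)‖ := by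
  have hsq : ∀ s : ℝ, ‖1 - (s : ℂ) * Complex.exp (α * Complex.I)‖ ^ 2 =
      1 - 2 * s * Real.cos α + s ^ 2 := by
    intro s
    rw [← Complex.normSq_eq_norm_sq, Complex.normSq_apply, Complex.exp_mul_I]
    simp only [Complex.sub_re, Complex.one_re, Complex.re_ofReal_mul, Complex.add_re,
      Complex.sub_im, Complex.one_im, Complex.im_ofReal_mul, Complex.add_im, Complex.mul_re,
      Complex.mul_im, Complex.I_re, Complex.I_im, mul_zero, mul_one, ← Complex.ofReal_cos,
      ← Complex.ofReal_sin, Complex.ofReal_re, Complex.ofReal_im]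
    nlinarith [Real.sin_sq_add_cos_sq α]
  have h2 := hsq 1
  have h3 := hsq r
  rw [Complex.ofReal_one, one_mul] at h2
  have hr : 0 < 1 + r := by linarith
  apply le_of_sq_le_sq _ (by positivity)
  rw [mul_pow, h2, h3, div_pow, div_mul_eq_mul_div, le_div_iff₀ (by positivity)]
  nlinarith [Real.neg_one_le_cos α, mul_nonneg (sq_nonneg (1 - r))
    (by linarith [Real.neg_one_le_cos α] : 0 ≤ 1 + Real.cos α)]

theorem fac {θ φ : ℝ} (h : Real.cos θ ≠ Real.cos φ) :
    Real.log (2 * |Real.cos θ - Real.cos φ|) =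
      Real.log ‖1 - Complex.exp ((θ - φ : ℝ) * Complex.I)‖ +
        Real.log ‖1 - Complex.exp ((θ + φ : ℝ) * Complex.I)‖ := by
  rw [← ph_prod h]
  unfold ph
  have key : ∀ a : ℝ, ‖circleMap 0 1 θ - circleMap 0 1 a‖ =
      ‖1 - Complex.exp ((θ - a : ℝ) * Complex.I)‖ := by
    intro a
    rw [← norm_neg]
    have : -(circleMap 0 1 θ - circleMap 0 1 a) =
        circleMap 0 1 a * (1 - Complex.exp ((θ - a : ℝ) * Complex.I)) := by
      unfold circleMap
      rw [mul_sub, zero_add, zero_add, Complex.ofReal_one, one_mul, one_mul, mul_one,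
        ← Complex.exp_add]
      push_cast
      have : (a : ℂ) * Complex.I + (θ - a) * Complex.I = θ * Complex.I := by ring
      rw [this]; ring
    rw [this, norm_mul, norm_circleMap_zero, abs_one, one_mul]
  rw [key, key, sub_neg_eq_add]

theorem log_le {r : ℝ} (h0 : 0 ≤ r) (h1 : r < 1) {p : ℝ × ℝ} (hx : p.1 ∈ Icc (0 : ℝ) 1)
    (hy : p.2 ∈ Icc (0 : ℝ) 1) (hne : p.1 ≠ p.2) :
    Real.log |p.1 - p.2| ≤ -Real.log 4 + 2 * Real.log (2 / (1 + r)) - ∑' n, SS r n p := by
  set θ := th p.1 with hθ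
  set φ := th p.2 with hφ
  have hc1 := cos_th hx
  have hc2 := cos_th hy
  rw [← hθ] at hc1
  rw [← hφ] at hc2
  have hne' : Real.cos θ ≠ Real.cos φ := by
    rw [hc1, hc2]; intro h; apply hne; linarith
  have hf := fac hne'
  have hpos : 0 < |p.1 - p.2| := abs_pos.2 (sub_ne_zero.2 hne)
  have e1 : 2 * |Real.cos θ - Real.cos φ| = 4 * |p.1 - p.2| := by
    rw [hc1, hc2, show 2 * p.1 - 1 - (2 * p.2 - 1) = 2 * (p.1 - p.2) by ring, abs_mul, abs_two]
    ring
  rw [e1, Real.log_mul (by norm_num) hpos.ne'] at hf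
  have hr : 0 < 2 / (1 + r) := by positivity
  have hreg : ∀ α : ℝ, 0 < ‖1 - Complex.exp (α * Complex.I)‖ →
      Real.log ‖1 - Complex.exp (α * Complex.I)‖ ≤ Real.log (2 / (1 + r)) +
        Real.log ‖1 - (r : ℂ) * Complex.exp (α * Complex.I)‖ := by
    intro α hα
    have h3 := reg h0 h1 α
    have hpos2 : 0 < ‖1 - (r : ℂ) * Complex.exp (α * Complex.I)‖ := by
      by_contra hn
      push Not at hn
      have : ‖1 - (r : ℂ) * Complex.exp (α * Complex.I)‖ = 0 := le_antisymm hn (norm_nonneg _)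
      rw [this, mul_zero] at h3
      linarith
    rw [← Real.log_mul hr.ne' hpos2.ne']
    exact Real.log_le_log hα h3
  have hn1 : 0 < ‖1 - Complex.exp ((θ - φ : ℝ) * Complex.I)‖ := by
    rw [norm_pos_iff]
    intro h
    apply hne'
    rw [sub_eq_zero] at h
    have := congrArg Complex.re h
    rw [Complex.one_re, Complex.exp_ofReal_mul_I_re] at this
    have h5 : Real.sin (θ - φ) = 0 := by
      have := Real.sin_sq_add_cos_sq (θ - φ)
      nlinarith
    have h6 : Real.cos θ = Real.cos ((θ - φ) + φ) := by congr 1; ring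
    rw [h6, Real.cos_add, ← this, h5]; ring
  have hn2 : 0 < ‖1 - Complex.exp ((θ + φ : ℝ) * Complex.I)‖ := by
    rw [norm_pos_iff]
    intro h
    apply hne'
    rw [sub_eq_zero] at h
    have := congrArg Complex.re h
    rw [Complex.one_re, Complex.exp_ofReal_mul_I_re] at this
    have h5 : Real.sin (θ + φ) = 0 := by
      have := Real.sin_sq_add_cos_sq (θ + φ)
      nlinarith
    have h6 : Real.cos θ = Real.cos ((θ + φ) - φ) := by congr 1; ring
    rw [h6, Real.cos_sub, ← this, h5]; ring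
  have hs : HasSum (fun n => SS r n p) (-Real.log ‖1 - (r : ℂ) * Complex.exp ((θ - φ : ℝ) * Complex.I)‖ +
      -Real.log ‖1 - (r : ℂ) * Complex.exp ((θ + φ : ℝ) * Complex.I)‖) := by
    convert (hasSum_log h0 h1 (θ - φ)).add (hasSum_log h0 h1 (θ + φ)) using 1
    funext n
    unfold SS
    rw [← hθ, ← hφ, mul_sub, mul_add, Real.cos_sub, Real.cos_add]
    ring
  rw [hs.tsum_eq]
  have h7 := hreg _ hn1
  have h8 := hreg _ hn2
  linarith

theorem energy_le (ν : Measure ℝ) [IsProbabilityMeasure ν] (h01 : ν (Icc 0 1)ᶜ = 0)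
    (hna : ∀ x, ν {x} = 0)
    (hint : Integrable (fun p : ℝ × ℝ => Real.log |p.1 - p.2|) (ν.prod ν)) {r : ℝ} (h0 : 0 ≤ r)
    (h1 : r < 1) :
    ∫ p : ℝ × ℝ, Real.log |p.1 - p.2| ∂(ν.prod ν) ≤ -Real.log 4 + 2 * Real.log (2 / (1 + r)) := by
  have hmem : ∀ᵐ x ∂ν, x ∈ Icc (0 : ℝ) 1 := by rw [ae_iff]; exact h01
  have hmem1 : ∀ᵐ p ∂(ν.prod ν), p.1 ∈ Icc (0 : ℝ) 1 :=
    Measure.quasiMeasurePreserving_fst.ae hmem
  have hmem2 : ∀ᵐ p ∂(ν.prod ν), p.2 ∈ Icc (0 : ℝ) 1 :=
    Measure.quasiMeasurePreserving_snd.ae hmem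
  have hdiag : ∀ᵐ p ∂(ν.prod ν), p.1 ≠ p.2 := by
    have hm : MeasurableSet {p : ℝ × ℝ | p.1 = p.2} := measurableSet_diagonal
    rw [ae_iff]
    simp only [ne_eq, not_not]
    rw [Measure.prod_apply hm]
    have : ∀ x : ℝ, Prod.mk x ⁻¹' {p : ℝ × ℝ | p.1 = p.2} = {x} := by
      intro x; ext y; simp [eq_comm]
    simp_rw [this, hna]
    simp
  have hSc : Continuous fun p : ℝ × ℝ => ∑' n, SS r n p :=
    continuous_tsum (cont_SS r) (summ h0 h1) (SS_bound h0)
  have hSint : Integrable (fun p : ℝ × ℝ => ∑' n, SS r n p) (ν.prod ν) := by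
    apply Integrable.of_bound hSc.aestronglyMeasurable (∑' n : ℕ, 2 * r ^ n)
    filter_upwards with p
    exact tsum_of_norm_bounded (summ h0 h1).hasSum (fun n => SS_bound h0 n p)
  have hFint : ∀ n, Integrable (SS r n) (ν.prod ν) := fun n =>
    Integrable.of_bound (cont_SS r n).aestronglyMeasurable (2 * r ^ n)
      (Eventually.of_forall fun p => SS_bound h0 n p)
  have hsum : HasSum (fun n => ∫ p, SS r n p ∂(ν.prod ν)) (∫ p, ∑' n, SS r n p ∂(ν.prod ν)) := by
    apply hasSum_integral_of_summable_integral_norm hFint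
    refine Summable.of_nonneg_of_le (fun n => integral_nonneg fun p => norm_nonneg _) (fun n => ?_)
      (summ h0 h1)
    calc ∫ p, ‖SS r n p‖ ∂(ν.prod ν) ≤ ∫ _, 2 * r ^ n ∂(ν.prod ν) :=
          integral_mono (hFint n).norm (integrable_const _) (fun p => SS_bound h0 n p)
      _ = 2 * r ^ n := by simp
  have hnn : 0 ≤ ∫ p, ∑' n, SS r n p ∂(ν.prod ν) := by
    refine hsum.nonneg fun n => ?_
    have : ∫ p, SS r n p ∂(ν.prod ν) = 2 * (r ^ n / n) *
        ((∫ x, Real.cos (n * th x) ∂ν) * (∫ x, Real.cos (n * th x) ∂ν)) := by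
      unfold SS
      rw [integral_const_mul, integral_prod_mul (fun x => Real.cos (n * th x))
        (fun x => Real.cos (n * th x))]
    rw [this]
    exact mul_nonneg (by positivity) (mul_self_nonneg _)
  calc ∫ p : ℝ × ℝ, Real.log |p.1 - p.2| ∂(ν.prod ν)
      ≤ ∫ p : ℝ × ℝ, (-Real.log 4 + 2 * Real.log (2 / (1 + r)) - ∑' n, SS r n p) ∂(ν.prod ν) := by
        apply integral_mono_ae hint ((integrable_const _).sub hSint)
        filter_upwards [hmem1, hmem2, hdiag] with p ha hb hc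
        exact log_le h0 h1 ha hb hc
    _ = -Real.log 4 + 2 * Real.log (2 / (1 + r)) - ∫ p, ∑' n, SS r n p ∂(ν.prod ν) := by
        rw [integral_sub (integrable_const _) hSint]; simp
    _ ≤ _ := by linarith

theorem capK_le {K : Set ℝ} (hK : K ⊆ Icc 0 1) : capK K ≤ ENNReal.ofReal (1 / 4) := by
  unfold capK
  refine iSup₂_le fun ν hp => iSup₂_le fun hνK hna => iSup_le fun hint => ?_
  have h01 : ν (Icc 0 1)ᶜ = 0 := measure_mono_null (compl_subset_compl.2 hK) hνK
  have h1 : ∫ p : ℝ × ℝ, Real.log |p.1 - p.2| ∂(ν.prod ν) ≤ -Real.log 4 := by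
    have hlim : Tendsto (fun r : ℝ => -Real.log 4 + 2 * Real.log (2 / (1 + r))) (𝓝[<] 1)
        (𝓝 (-Real.log 4)) := by
      have : ContinuousAt (fun r : ℝ => -Real.log 4 + 2 * Real.log (2 / (1 + r))) 1 := by
        apply ContinuousAt.add continuousAt_const
        apply ContinuousAt.mul continuousAt_const
        apply ContinuousAt.log
        · exact ContinuousAt.div continuousAt_const (by fun_prop) (by norm_num)
        · norm_num
      have h2 := this.tendsto.mono_left (nhdsWithin_le_nhds (s := Iio 1))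
      have e : -Real.log 4 + 2 * Real.log (2 / (1 + 1)) = -Real.log 4 := by norm_num
      rwa [e] at h2
    apply ge_of_tendsto hlim
    have : Ioo (0 : ℝ) 1 ∈ 𝓝[<] (1 : ℝ) := Ioo_mem_nhdsLT one_pos
    filter_upwards [this] with r hr
    exact energy_le ν h01 hna hint hr.1.le hr.2
  apply ENNReal.ofReal_le_ofReal
  calc Real.exp _ ≤ Real.exp (-Real.log 4) := Real.exp_le_exp.2 h1
    _ = 1 / 4 := by rw [Real.exp_neg, Real.exp_log (by norm_num)]; norm_num

theorem minCap_le {μ : Measure ℝ} (h : μ (Icc 0 1)ᶜ = 0) : minCap μ ≤ ENNReal.ofReal (1 / 4) := by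
  unfold minCap
  refine iInf₂_le_of_le (Icc 0 1) measurableSet_Icc (iInf_le_of_le h ?_)
  unfold capB
  exact iSup₂_le fun K _ => iSup_le fun hK => capK_le hK

end Pool.Agent.X83.QM
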