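import Mathlib

open MeasureTheory Filter Topology Set
open scoped ENNReal

namespace Pool.Agent.X83.QM

/-- The Gauss map `x ↦ {1/x}` (with `0 ↦ 0`). -/
noncomputable def gauss (x : ℝ) : ℝ := Int.fract x⁻¹

/-- The partial quotients: `digit x k` is `a_{k+1}` in `x = [0; a_1, a_2, …]` (it is `0` past the
end of a finite expansion). -/
noncomputable def digit (x : ℝ) (k : ℕ) : ℕ := ⌊(gauss^[k] x)⁻¹⌋₊

open scoped Classical in
/-- Minkowski's question mark function,
`q(x) = 2 ∑_{k ≥ 1} (-1)^(k+1) / 2^(a_1 + … + a_k)`, the sum being over the partial quotients that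
exist. -/
noncomputable def qm (x : ℝ) : ℝ :=
  2 * ∑' k : ℕ, if gauss^[k] x = 0 then 0
    else (-1 : ℝ) ^ k / 2 ^ (∑ i ∈ Finset.range (k + 1), digit x i)

/-- `μ` is the Borel probability measure on `[0,1]` with distribution function `q`. -/
def IsMinkowski (μ : Measure ℝ) : Prop :=
  IsProbabilityMeasure μ ∧ μ (Icc 0 1)ᶜ = 0 ∧ ∀ x ∈ Icc (0 : ℝ) 1, μ (Icc 0 x) = ENNReal.ofReal (qm x)

/-- The logarithmic capacity of a compact set `K` of the line: the supremum of `exp (-I(ν))` over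
the probability measures `ν` on `K` of finite energy
`I(ν) = ∬ log (1 / |x - y|) dν(x) dν(y)` (such measures have no atoms). -/
noncomputable def capK (K : Set ℝ) : ℝ≥0∞ :=
  ⨆ (ν : Measure ℝ) (_ : IsProbabilityMeasure ν) (_ : ν Kᶜ = 0) (_ : ∀ x, ν {x} = 0)
    (_ : Integrable (fun p : ℝ × ℝ => Real.log |p.1 - p.2|) (ν.prod ν)),
    ENNReal.ofReal (Real.exp (∫ p : ℝ × ℝ, Real.log |p.1 - p.2| ∂(ν.prod ν)))

/-- The capacity of a Borel set. -/
noncomputable def capB (B : Set ℝ) : ℝ≥0∞ := ⨆ (K : Set ℝ) (_ : IsCompact K) (_ : K ⊆ B), capK K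

/-- The minimal carrier capacity of `μ`. -/
noncomputable def minCap (μ : Measure ℝ) : ℝ≥0∞ :=
  ⨅ (B : Set ℝ) (_ : MeasurableSet B) (_ : μ Bᶜ = 0), capB B

/-- `p` is the sequence of the orthonormal polynomials of `μ`, with positive leading
coefficients. -/
def IsONP (μ : Measure ℝ) (p : ℕ → Polynomial ℝ) : Prop :=
  (∀ n, (p n).natDegree = n ∧ 0 < (p n).leadingCoeff) ∧
    ∀ n m, ∫ x, (p n).eval x * (p m).eval x ∂μ = if n = m then 1 else 0

/-- `a` and `b` are the recurrence coefficients of `p`. -/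
def IsRecurrence (p : ℕ → Polynomial ℝ) (a b : ℕ → ℝ) : Prop :=
  (∀ n, 1 ≤ n → 0 < a n) ∧
    Polynomial.X * p 0 = Polynomial.C (a 1) * p 1 + Polynomial.C (b 0) * p 0 ∧
    ∀ n, 1 ≤ n → Polynomial.X * p n =
      Polynomial.C (a (n + 1)) * p (n + 1) + Polynomial.C (b n) * p n +
        Polynomial.C (a n) * p (n - 1)

end Pool.Agent.X83.QM
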