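import Pool.Agent.X83.QM.K

open MeasureTheory Filter Topology Set
open scoped ENNReal Real

namespace Pool.Agent.X83.QM

/-- The transfer operator. -/
noncomputable def TT (F : ℝ → ℝ) (y : ℝ) : ℝ :=
  if y ≤ 1 / 2 then F (y / (1 - y)) / 2 else 1 - F ((1 - y) / y) / 2

/-- The approximations. -/
noncomputable def Fn : ℕ → ℝ → ℝ
  | 0 => id
  | n + 1 => TT (Fn n)

theorem left_mem {y : ℝ} (hy : y ∈ Icc (0 : ℝ) (1 / 2)) : y / (1 - y) ∈ Icc (0 : ℝ) 1 := by
  have : 0 < 1 - y := by linarith [hy.2]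
  exact ⟨div_nonneg hy.1 this.le, by rw [div_le_one this]; linarith [hy.2]⟩

theorem right_mem {y : ℝ} (hy : y ∈ Icc (1 / 2 : ℝ) 1) : (1 - y) / y ∈ Icc (0 : ℝ) 1 := by
  have : 0 < y := by linarith [hy.1]
  exact ⟨div_nonneg (by linarith [hy.2]) this.le, by rw [div_le_one this]; linarith [hy.1]⟩

/-- Good distribution functions. -/
structure DF (F : ℝ → ℝ) : Prop where
  cont : ContinuousOn F (Icc 0 1)
  mono : MonotoneOn F (Icc 0 1)
  zero : F 0 = 0
  one : F 1 = 1

theorem TT_right {F : ℝ → ℝ} (hF : DF F) {y : ℝ} (hy : y ∈ Icc (1 / 2 : ℝ) 1) :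
    TT F y = 1 - F ((1 - y) / y) / 2 := by
  unfold TT
  split_ifs with h
  · have : y = 1 / 2 := le_antisymm h hy.1
    subst this
    norm_num
    rw [hF.one]; norm_num
  · rfl

theorem TT_left {F : ℝ → ℝ} {y : ℝ} (hy : y ∈ Icc (0 : ℝ) (1 / 2)) :
    TT F y = F (y / (1 - y)) / 2 := if_pos hy.2

theorem DF.TT {F : ℝ → ℝ} (hF : DF F) : DF (TT F) where
  cont := by
    have hI : Icc (0 : ℝ) 1 = Icc 0 (1 / 2) ∪ Icc (1 / 2) 1 :=
      (Icc_union_Icc_eq_Icc (by norm_num) (by norm_num)).symm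
    rw [hI]
    apply ContinuousOn.union_of_isClosed _ _ isClosed_Icc isClosed_Icc
    · have h1 : ContinuousOn (fun y : ℝ => F (y / (1 - y)) / 2) (Icc 0 (1 / 2)) := by
        apply ContinuousOn.div_const
        refine hF.cont.comp ?_ (fun y hy => left_mem hy)
        refine ContinuousOn.div continuousOn_id (by fun_prop) ?_
        intro y hy
        have := hy.2
        intro h0
        linarith
      exact h1.congr fun y hy => TT_left hy
    · have h1 : ContinuousOn (fun y : ℝ => 1 - F ((1 - y) / y) / 2) (Icc (1 / 2) 1) := by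
        apply ContinuousOn.sub continuousOn_const
        apply ContinuousOn.div_const
        refine hF.cont.comp ?_ (fun y hy => right_mem hy)
        refine ContinuousOn.div (by fun_prop) continuousOn_id ?_
        intro y hy
        have := hy.1
        intro h0
        linarith
      exact h1.congr fun y hy => TT_right hF hy
  mono := by
    have hb : ∀ t ∈ Icc (0 : ℝ) 1, F t ≤ 1 := fun t ht => by
      rw [← hF.one]; exact hF.mono ht ⟨zero_le_one, le_rfl⟩ ht.2
    intro y hy z hz hyz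
    rcases le_total y (1 / 2) with h1 | h1 <;> rcases le_total z (1 / 2) with h2 | h2
    · rw [TT_left ⟨hy.1, h1⟩, TT_left ⟨hz.1, h2⟩]
      have := hF.mono (left_mem ⟨hy.1, h1⟩) (left_mem ⟨hz.1, h2⟩) (by
        rw [div_le_div_iff₀ (by linarith) (by linarith)]; nlinarith)
      linarith
    · rw [TT_left ⟨hy.1, h1⟩, TT_right hF ⟨h2, hz.2⟩]
      have h3 := hb _ (left_mem ⟨hy.1, h1⟩)
      have h4 := hb _ (right_mem ⟨h2, hz.2⟩)
      linarith
    · have : y = z := le_antisymm hyz (h2.trans h1)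
      rw [this]
    · rw [TT_right hF ⟨h1, hy.2⟩, TT_right hF ⟨h2, hz.2⟩]
      have := hF.mono (right_mem ⟨h2, hz.2⟩) (right_mem ⟨h1, hy.2⟩) (by
        rw [div_le_div_iff₀ (by linarith) (by linarith)]; nlinarith)
      linarith
  zero := by
    rw [TT_left ⟨le_rfl, by norm_num⟩]; simp [hF.zero]
  one := by
    rw [TT_right hF ⟨by norm_num, le_rfl⟩]; simp [hF.zero]

theorem DF_Fn (n : ℕ) : DF (Fn n) := by
  induction n with
  | zero => exact ⟨continuousOn_id, monotoneOn_id, rfl, rfl⟩
  | succ n ih => exact ih.TT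

theorem qm_bound {x : ℝ} (hx : x ∈ Icc (0 : ℝ) 1) : |qm x| ≤ 4 := by
  rw [qm_eq, abs_mul, abs_two]
  have h1 : HasSum (fun n : ℕ => (1 / 2 : ℝ) ^ n) 2 := hasSum_geometric_two
  have := tsum_of_norm_bounded h1 (fun n => by rw [Real.norm_eq_abs]; exact tm_abs hx n)
  rw [Real.norm_eq_abs] at this
  linarith

theorem Fn_dist (n : ℕ) : ∀ y ∈ Icc (0 : ℝ) 1, |qm y - Fn n y| ≤ 5 * (1 / 2) ^ n := by
  induction n with
  | zero =>
    intro y hy
    have h1 := qm_bound hy
    rw [abs_le] at h1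
    show |qm y - y| ≤ _
    rw [abs_le]
    constructor <;> norm_num <;> linarith [hy.1, hy.2]
  | succ n ih =>
    intro y hy
    show |qm y - TT (Fn n) y| ≤ _
    rcases le_total y (1 / 2) with h1 | h1
    · rw [TT_left ⟨hy.1, h1⟩]
      have hs := left_mem ⟨hy.1, h1⟩
      set s := y / (1 - y) with hsd
      have h1y : 0 < 1 - y := by linarith
      have hys : y = s / (1 + s) := by rw [hsd]; field_simp; ring
      conv_lhs => rw [hys, qm_f0 hs]
      have := ih s hs
      rw [show qm s / 2 - Fn n s / 2 = (qm s - Fn n s) / 2 by ring, abs_div, abs_two, pow_succ]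
      linarith
    · rw [TT_right (DF_Fn n) ⟨h1, hy.2⟩]
      have hs := right_mem ⟨h1, hy.2⟩
      set s := (1 - y) / y with hsd
      have h1y : 0 < y := by linarith
      have hys : y = 1 / (1 + s) := by rw [hsd]; field_simp; ring
      conv_lhs => rw [hys, qm_f1 hs]
      have := ih s hs
      rw [show 1 - qm s / 2 - (1 - Fn n s / 2) = -((qm s - Fn n s) / 2) by ring, abs_neg, abs_div,
        abs_two, pow_succ]
      linarith

theorem Fn_lim : TendstoUniformlyOn Fn qm atTop (Icc 0 1) := by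
  rw [Metric.tendstoUniformlyOn_iff]
  intro ε hε
  have h1 : Tendsto (fun n : ℕ => 5 * (1 / 2 : ℝ) ^ n) atTop (𝓝 (5 * 0)) :=
    (tendsto_pow_atTop_nhds_zero_of_lt_one (by norm_num) (by norm_num)).const_mul 5
  rw [mul_zero] at h1
  filter_upwards [h1.eventually (gt_mem_nhds hε)] with n hn y hy
  rw [Real.dist_eq]
  exact (Fn_dist n y hy).trans_lt hn

theorem qm_cont : ContinuousOn qm (Icc 0 1) :=
  Fn_lim.continuousOn (Frequently.of_forall fun n => (DF_Fn n).cont)

theorem qm_mono : MonotoneOn qm (Icc 0 1) := by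
  intro y hy z hz hyz
  exact le_of_tendsto_of_tendsto' (Fn_lim.tendsto_at hy) (Fn_lim.tendsto_at hz)
    fun n => (DF_Fn n).mono hy hz hyz

/-- The distribution function. -/
noncomputable def gg : StieltjesFunction ℝ where
  toFun := IccExtend (zero_le_one (α := ℝ)) fun x : Icc (0 : ℝ) 1 => qm x
  mono' := by
    apply Monotone.IccExtend
    intro x y hxy
    exact qm_mono x.2 y.2 hxy
  right_continuous' := fun x => by
    have : Continuous (IccExtend (zero_le_one (α := ℝ)) fun x : Icc (0 : ℝ) 1 => qm x) :=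
      Continuous.Icc_extend' (continuousOn_iff_continuous_domRestrict.1 qm_cont)
    exact this.continuousWithinAt

theorem gg_eq {x : ℝ} (hx : x ∈ Icc (0 : ℝ) 1) : gg x = qm x :=
  IccExtend_of_mem zero_le_one (fun x : Icc (0 : ℝ) 1 => qm x) hx

theorem gg_neg {x : ℝ} (hx : x ≤ 0) : gg x = 0 := by
  have : gg x = qm (0 : ℝ) := IccExtend_of_le_left zero_le_one (fun x : Icc (0 : ℝ) 1 => qm x) hx
  rw [this, qm_zero]

theorem gg_one {x : ℝ} (hx : 1 ≤ x) : gg x = 1 := by
  have : gg x = qm (1 : ℝ) := IccExtend_of_right_le zero_le_one (fun x : Icc (0 : ℝ) 1 => qm x) hx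
  rw [this, qm_one]

/-- The Minkowski measure exists. -/
theorem exists_minkowski : ∃ μ : Measure ℝ, IsMinkowski μ := by
  have hbot : Tendsto gg atBot (𝓝 0) := by
    apply tendsto_const_nhds.congr'
    filter_upwards [eventually_le_atBot 0] with x hx
    exact (gg_neg hx).symm
  have htop : Tendsto gg atTop (𝓝 1) := by
    apply tendsto_const_nhds.congr'
    filter_upwards [eventually_ge_atTop 1] with x hx
    exact (gg_one hx).symm
  have hp : IsProbabilityMeasure gg.measure := gg.isProbabilityMeasure hbot htop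
  have hl : Function.leftLim gg 0 = 0 := by
    have h1 : Tendsto gg (𝓝[<] 0) (𝓝 (Function.leftLim gg 0)) := gg.mono.tendsto_leftLim _
    have h2 : Tendsto gg (𝓝[<] 0) (𝓝 0) := by
      apply tendsto_const_nhds.congr'
      filter_upwards [self_mem_nhdsWithin] with x hx
      exact (gg_neg (le_of_lt hx)).symm
    exact tendsto_nhds_unique h1 h2
  have hI : ∀ x ∈ Icc (0 : ℝ) 1, gg.measure (Icc 0 x) = ENNReal.ofReal (qm x) := by
    intro x hx
    rw [StieltjesFunction.measure_Icc, hl, gg_eq hx, sub_zero]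
  refine ⟨gg.measure, hp, ?_, hI⟩
  rw [prob_compl_eq_zero_iff measurableSet_Icc, hI 1 ⟨zero_le_one, le_rfl⟩, qm_one,
    ENNReal.ofReal_one]

end Pool.Agent.X83.QM
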