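import Pool.Agent.X83.QM.Q

open MeasureTheory Filter Topology Set
open scoped ENNReal

namespace Pool.Agent.X83.QM

/-- The left branch. -/
noncomputable def f0 (x : ℝ) : ℝ := x / (1 + x)

/-- The right branch. -/
noncomputable def f1 (x : ℝ) : ℝ := 1 / (1 + x)

theorem measurable_f0 : Measurable f0 := by unfold f0; fun_prop
theorem measurable_f1 : Measurable f1 := by unfold f1; fun_prop

theorem f0_mem {x : ℝ} (hx : x ∈ Icc (0 : ℝ) 1) : f0 x ∈ Icc (0 : ℝ) 1 := by
  have h := hx.1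
  unfold f0
  exact ⟨by positivity, by rw [div_le_one (by linarith)]; linarith⟩

theorem f1_mem {x : ℝ} (hx : x ∈ Icc (0 : ℝ) 1) : f1 x ∈ Icc (0 : ℝ) 1 := by
  have h := hx.1
  unfold f1
  exact ⟨by positivity, by rw [div_le_one (by linarith)]; linarith⟩

section Self

variable {μ : Measure ℝ} (hμ : IsMinkowski μ)

include hμ

theorem IsMinkowski.prob : IsProbabilityMeasure μ := hμ.1

theorem IsMinkowski.ae_mem : ∀ᵐ y ∂μ, y ∈ Icc (0 : ℝ) 1 := by
  rw [ae_iff]; exact hμ.2.1

theorem IsMinkowski.meas_Iic {x : ℝ} (hx : x ∈ Icc (0 : ℝ) 1) : μ (Iic x) = ENNReal.ofReal (qm x) := by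
  rw [← hμ.2.2 x hx]
  apply measure_congr
  filter_upwards [hμ.ae_mem] with y hy
  have : (y ∈ Iic x) = (y ∈ Icc 0 x) := by
    simp only [mem_Iic, mem_Icc, eq_iff_iff]
    exact ⟨fun h => ⟨hy.1, h⟩, fun h => h.2⟩
  exact this

theorem IsMinkowski.qm_nonneg {x : ℝ} (hx : x ∈ Icc (0 : ℝ) 1) : 0 ≤ qm x := by
  have := hμ.prob
  by_contra h
  push Not at h
  have h0 : μ (Set.Iic x) = 0 := by rw [hμ.meas_Iic hx, ENNReal.ofReal_eq_zero]; exact h.le
  have hx1 : x ≠ 1 := by rintro rfl; rw [qm_one] at h; linarith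
  have h2 := qm_f1' (x := x) ⟨hx.1, lt_of_le_of_ne hx.2 hx1⟩
  have h3 : μ (Set.Iic (1 / (1 + x))) ≤ 1 := prob_le_one
  have h4 := f1_mem hx
  unfold f1 at h4
  rw [hμ.meas_Iic h4, h2] at h3
  have h5 := ENNReal.ofReal_le_one.1 h3
  linarith

theorem IsMinkowski.cdf_eq {x : ℝ} (hx : x ∈ Icc (0 : ℝ) 1) :
    ProbabilityTheory.cdf μ x = qm x := by
  have := hμ.prob
  rw [ProbabilityTheory.cdf_eq_real, Measure.real, hμ.meas_Iic hx, ENNReal.toReal_ofReal (hμ.qm_nonneg hx)]

theorem IsMinkowski.noatom1 {x : ℝ} (hx : x ∈ Ico (0 : ℝ) 1) : μ {1 / (1 + x)} = 0 := by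
  have := hμ.prob
  set f := ProbabilityTheory.cdf μ with hf
  have hm : μ = f.measure := (ProbabilityTheory.measure_cdf μ).symm
  rw [hm, StieltjesFunction.measure_singleton]
  have h1 : Tendsto f (𝓝[<] (1 / (1 + x))) (𝓝 (Function.leftLim f (1 / (1 + x)))) :=
    f.mono.tendsto_leftLim _
  have hx1 : 0 < 1 + x := by linarith [hx.1]
  have h2 : Tendsto (fun y : ℝ => 1 / (1 + y)) (𝓝[>] x) (𝓝[<] (1 / (1 + x))) := by
    apply tendsto_nhdsWithin_of_tendsto_nhds_of_eventually_within
    · have : ContinuousAt (fun y : ℝ => 1 / (1 + y)) x := by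
        apply ContinuousAt.div continuousAt_const (by fun_prop) hx1.ne'
      exact this.tendsto.mono_left nhdsWithin_le_nhds
    · filter_upwards [self_mem_nhdsWithin] with y hy
      rw [mem_Ioi] at hy
      rw [mem_Iio]
      exact one_div_lt_one_div_of_lt hx1 (by linarith)
  have h3 := h1.comp h2
  have h4 : Tendsto (fun y => 1 - f y / 2) (𝓝[>] x) (𝓝 (1 - f x / 2)) := by
    have : Tendsto f (𝓝[>] x) (𝓝 (f x)) :=
      (f.right_continuous x).mono_left (nhdsWithin_mono _ Ioi_subset_Ici_self)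
    exact (this.div_const 2).const_sub 1
  have h5 : Tendsto (fun y => 1 - f y / 2) (𝓝[>] x) (𝓝 (Function.leftLim f (1 / (1 + x)))) := by
    refine h3.congr' ?_
    have : Ioo x 1 ∈ 𝓝[>] x := Ioo_mem_nhdsGT hx.2
    filter_upwards [this] with y hy
    have hy' : y ∈ Icc (0 : ℝ) 1 := ⟨by linarith [hx.1, hy.1], hy.2.le⟩
    simp only [Function.comp]
    have h6 := f1_mem hy'
    unfold f1 at h6
    rw [hf, hμ.cdf_eq h6, hμ.cdf_eq hy', qm_f1 hy']
  have h6 := tendsto_nhds_unique h4 h5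
  rw [← h6]
  have hx' : x ∈ Icc (0 : ℝ) 1 := ⟨hx.1, hx.2.le⟩
  have h7 := f1_mem hx'
  unfold f1 at h7
  rw [hf, hμ.cdf_eq h7, hμ.cdf_eq hx', qm_f1 hx']
  simp

theorem IsMinkowski.noatom0 {x : ℝ} (hx : x ∈ Ioc (0 : ℝ) 1) (h0 : μ {x} = 0) :
    μ {x / (1 + x)} = 0 := by
  have := hμ.prob
  set f := ProbabilityTheory.cdf μ with hf
  have hm : μ = f.measure := (ProbabilityTheory.measure_cdf μ).symm
  rw [hm, StieltjesFunction.measure_singleton] at h0 ⊢
  have h1 : Tendsto f (𝓝[<] (x / (1 + x))) (𝓝 (Function.leftLim f (x / (1 + x)))) :=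
    f.mono.tendsto_leftLim _
  have hx1 : 0 < 1 + x := by linarith [hx.1]
  have h2 : Tendsto (fun y : ℝ => y / (1 + y)) (𝓝[<] x) (𝓝[<] (x / (1 + x))) := by
    apply tendsto_nhdsWithin_of_tendsto_nhds_of_eventually_within
    · have : ContinuousAt (fun y : ℝ => y / (1 + y)) x := by
        apply ContinuousAt.div (by fun_prop) (by fun_prop) hx1.ne'
      exact this.tendsto.mono_left nhdsWithin_le_nhds
    · have : Ioo 0 x ∈ 𝓝[<] x := Ioo_mem_nhdsLT hx.1
      filter_upwards [this] with y hy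
      rw [mem_Iio, div_lt_div_iff₀ (by linarith [hy.1]) hx1]
      nlinarith [hy.1, hy.2]
  have h3 := h1.comp h2
  have h4 : Tendsto (fun y => f y / 2) (𝓝[<] x) (𝓝 (Function.leftLim f x / 2)) :=
    (f.mono.tendsto_leftLim _).div_const 2
  have h5 : Tendsto (fun y => f y / 2) (𝓝[<] x) (𝓝 (Function.leftLim f (x / (1 + x)))) := by
    refine h3.congr' ?_
    have : Ioo 0 x ∈ 𝓝[<] x := Ioo_mem_nhdsLT hx.1
    filter_upwards [this] with y hy
    have hy' : y ∈ Icc (0 : ℝ) 1 := ⟨hy.1.le, by linarith [hx.2, hy.2]⟩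
    simp only [Function.comp]
    have h6 := f0_mem hy'
    unfold f0 at h6
    rw [hf, hμ.cdf_eq h6, hμ.cdf_eq hy', qm_f0 hy']
  have h6 := tendsto_nhds_unique h4 h5
  rw [← h6]
  have hx' : x ∈ Icc (0 : ℝ) 1 := ⟨hx.1.le, hx.2⟩
  have h7 := f0_mem hx'
  unfold f0 at h7
  rw [ENNReal.ofReal_eq_zero] at h0 ⊢
  rw [hf, hμ.cdf_eq h7, qm_f0 hx', ← hμ.cdf_eq hx']
  linarith

theorem IsMinkowski.noatom (n : ℕ) : ∀ y ∈ Icc (0 : ℝ) 1, 1 / (n + 2 : ℝ) < y → μ {y} = 0 := by
  induction n with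
  | zero =>
    intro y hy h
    have hy0 : 0 < y := by
      refine lt_trans ?_ h
      positivity
    have h1 : y = 1 / (1 + (1 / y - 1)) := by field_simp; ring
    rw [h1]
    apply hμ.noatom1
    constructor
    · have : 1 ≤ 1 / y := by rw [le_div_iff₀ hy0]; linarith [hy.2]
      linarith
    · have : 1 / y < 2 := by
        rw [div_lt_iff₀ hy0]
        norm_num at h
        linarith
      linarith
  | succ n ih =>
    intro y hy h
    have hy0 : 0 < y := by
      refine lt_trans ?_ h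
      positivity
    by_cases hy2 : 1 / 2 < y
    · have h1 : y = 1 / (1 + (1 / y - 1)) := by field_simp; ring
      rw [h1]
      apply hμ.noatom1
      constructor
      · have : 1 ≤ 1 / y := by rw [le_div_iff₀ hy0]; linarith [hy.2]
        linarith
      · have : 1 / y < 2 := by
          rw [div_lt_iff₀ hy0]
          linarith
        linarith
    · push Not at hy2
      have h1y : 0 < 1 - y := by linarith
      set x := y / (1 - y) with hx
      have hyx : y = x / (1 + x) := by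
        rw [hx]; field_simp; ring
      have hx0 : 0 < x := by positivity
      have hx1 : x ≤ 1 := by rw [hx, div_le_one h1y]; linarith
      rw [hyx]
      apply hμ.noatom0 ⟨hx0, hx1⟩
      apply ih x ⟨hx0.le, hx1⟩
      rw [hx, div_lt_div_iff₀ (by positivity) h1y]
      rw [div_lt_iff₀ (by positivity)] at h
      push_cast at h
      linarith

theorem IsMinkowski.noAtoms : NullSingletonClass μ := by
  constructor
  intro y
  by_cases hy : y ∈ Icc (0 : ℝ) 1
  · rcases eq_or_lt_of_le hy.1 with h0 | h0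
    · rw [← h0]
      have := hμ.2.2 0 ⟨le_rfl, zero_le_one⟩
      rw [Icc_self, qm_zero] at this
      simpa using this
    · obtain ⟨n, hn⟩ := exists_nat_one_div_lt h0
      apply hμ.noatom n y hy
      refine lt_of_le_of_lt ?_ hn
      apply one_div_le_one_div_of_le (by positivity)
      linarith
  · exact measure_mono_null (by simpa using hy) hμ.2.1

theorem IsMinkowski.selfsim : μ = (2 : ℝ≥0∞)⁻¹ • μ.map f0 + (2 : ℝ≥0∞)⁻¹ • μ.map f1 := by
  have := hμ.prob
  have hna := hμ.noAtoms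
  have h2 : (2 : ℝ≥0∞)⁻¹ = ENNReal.ofReal (1 / 2) := by
    rw [one_div, ENNReal.ofReal_inv_of_pos (by norm_num)]; norm_num
  have hfin : IsFiniteMeasure ((2 : ℝ≥0∞)⁻¹ • μ.map f0 + (2 : ℝ≥0∞)⁻¹ • μ.map f1) := by
    constructor
    simp only [Measure.coe_add, Measure.coe_smul, Pi.add_apply, Pi.smul_apply, smul_eq_mul]
    rw [Measure.map_apply measurable_f0 MeasurableSet.univ,
      Measure.map_apply measurable_f1 MeasurableSet.univ]
    simp only [preimage_univ, measure_univ, mul_one]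
    rw [ENNReal.inv_two_add_inv_two]
    exact ENNReal.one_lt_top
  apply Measure.ext_of_Iic
  intro a
  simp only [Measure.coe_add, Measure.coe_smul, Pi.add_apply, Pi.smul_apply, smul_eq_mul]
  rw [Measure.map_apply measurable_f0 measurableSet_Iic,
    Measure.map_apply measurable_f1 measurableSet_Iic]
  by_cases ha0 : a < 0
  · have e1 : μ (Set.Iic a) = 0 := by
      apply measure_mono_null _ hμ.2.1
      intro y hy hy'
      rw [mem_Iic] at hy
      linarith [hy'.1]
    have e2 : μ (f0 ⁻¹' Set.Iic a) = 0 := by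
      apply measure_mono_null _ hμ.2.1
      intro y hy hy'
      rw [mem_preimage, mem_Iic] at hy
      linarith [(f0_mem hy').1]
    have e3 : μ (f1 ⁻¹' Set.Iic a) = 0 := by
      apply measure_mono_null _ hμ.2.1
      intro y hy hy'
      rw [mem_preimage, mem_Iic] at hy
      linarith [(f1_mem hy').1]
    rw [e1, e2, e3]; simp
  push Not at ha0
  by_cases ha1 : 1 < a
  · have e1 : μ (Set.Iic a) = 1 := by
      rw [← prob_compl_eq_zero_iff measurableSet_Iic]
      apply measure_mono_null _ hμ.2.1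
      intro y hy hy'
      rw [mem_compl_iff, mem_Iic] at hy
      linarith [hy'.2]
    have e2 : μ (f0 ⁻¹' Set.Iic a) = 1 := by
      rw [← prob_compl_eq_zero_iff (measurable_f0 measurableSet_Iic)]
      apply measure_mono_null _ hμ.2.1
      intro y hy hy'
      rw [mem_compl_iff, mem_preimage, mem_Iic] at hy
      linarith [(f0_mem hy').2]
    have e3 : μ (f1 ⁻¹' Set.Iic a) = 1 := by
      rw [← prob_compl_eq_zero_iff (measurable_f1 measurableSet_Iic)]
      apply measure_mono_null _ hμ.2.1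
      intro y hy hy'
      rw [mem_compl_iff, mem_preimage, mem_Iic] at hy
      linarith [(f1_mem hy').2]
    rw [e1, e2, e3, mul_one, ENNReal.inv_two_add_inv_two]
  push Not at ha1
  by_cases ha : a < 1 / 2
  · -- left half
    have h1a : 0 < 1 - a := by linarith
    set s := a / (1 - a) with hs
    have hs0 : 0 ≤ s := by positivity
    have hs1 : s < 1 := by rw [hs, div_lt_one h1a]; linarith
    have has : a = s / (1 + s) := by rw [hs]; field_simp; ring
    have e2 : μ (f0 ⁻¹' Set.Iic a) = μ (Set.Iic s) := by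
      apply measure_congr
      filter_upwards [hμ.ae_mem] with y hy
      have : (y ∈ f0 ⁻¹' Set.Iic a) = (y ∈ Set.Iic s) := by
        simp only [mem_preimage, mem_Iic, eq_iff_iff, f0]
        have hy0 := hy.1
        rw [hs, div_le_iff₀ (by linarith), le_div_iff₀ h1a]
        constructor <;> intro h <;> nlinarith
      exact this
    have e3 : μ (f1 ⁻¹' Set.Iic a) = 0 := by
      apply measure_mono_null _ hμ.2.1
      intro y hy hy'
      rw [mem_preimage, mem_Iic, f1, div_le_iff₀ (by linarith [hy'.1])] at hy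
      nlinarith [hy'.1, hy'.2]
    rw [e2, e3, mul_zero, add_zero, hμ.meas_Iic ⟨ha0, ha1⟩, hμ.meas_Iic ⟨hs0, hs1.le⟩, h2,
      ← ENNReal.ofReal_mul (by norm_num)]
    congr 1
    rw [has, qm_f0 ⟨hs0, hs1.le⟩]; ring
  · push Not at ha
    have ha' : 0 < a := by linarith
    set s := (1 - a) / a with hs
    have hs0 : 0 ≤ s := div_nonneg (by linarith) ha'.le
    have hs1 : s ≤ 1 := by rw [hs, div_le_one ha']; linarith
    have has : a = 1 / (1 + s) := by rw [hs]; field_simp; ring
    have e2 : μ (f0 ⁻¹' Set.Iic a) = 1 := by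
      rw [← prob_compl_eq_zero_iff (measurable_f0 measurableSet_Iic)]
      apply measure_mono_null _ hμ.2.1
      intro y hy hy'
      rw [mem_compl_iff, mem_preimage, mem_Iic, f0, not_le, lt_div_iff₀ (by linarith [hy'.1])] at hy
      nlinarith [hy'.1, hy'.2]
    have e3 : μ (f1 ⁻¹' Set.Iic a) = μ (Set.Iic s)ᶜ := by
      have e4 : μ (f1 ⁻¹' Set.Iic a) = μ (Ici s) := by
        apply measure_congr
        filter_upwards [hμ.ae_mem] with y hy
        have : (y ∈ f1 ⁻¹' Set.Iic a) = (y ∈ Ici s) := by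
          simp only [mem_preimage, mem_Iic, mem_Ici, eq_iff_iff, f1]
          have hy0 := hy.1
          rw [hs, div_le_iff₀ (by linarith), div_le_iff₀ ha']
          constructor <;> intro h <;> nlinarith
        exact this
      rw [e4, compl_Iic]
      exact (measure_congr Ioi_ae_eq_Ici).symm
    rw [e2, e3, prob_compl_eq_one_sub measurableSet_Iic, hμ.meas_Iic ⟨ha0, ha1⟩,
      hμ.meas_Iic ⟨hs0, hs1⟩, h2, mul_one, ← ENNReal.ofReal_one,
      ← ENNReal.ofReal_sub _ (hμ.qm_nonneg ⟨hs0, hs1⟩)]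
    have h8 : qm s ≤ 1 := by
      have h3 : μ (Set.Iic s) ≤ 1 := prob_le_one
      rw [hμ.meas_Iic ⟨hs0, hs1⟩] at h3
      exact ENNReal.ofReal_le_one.1 h3
    rw [← ENNReal.ofReal_mul (by norm_num), ← ENNReal.ofReal_add (by norm_num) (by linarith)]
    congr 1
    rw [has, qm_f1 ⟨hs0, hs1⟩]; ring

theorem IsMinkowski.lint {g : ℝ → ℝ≥0∞} (hg : Measurable g) :
    ∫⁻ y, g y ∂μ = 2⁻¹ * ∫⁻ y, g (f0 y) ∂μ + 2⁻¹ * ∫⁻ y, g (f1 y) ∂μ := by
  conv_lhs => rw [hμ.selfsim]
  rw [lintegral_add_measure, lintegral_smul_measure, lintegral_smul_measure,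
    lintegral_map hg measurable_f0, lintegral_map hg measurable_f1]
  rfl

theorem IsMinkowski.map_f0_le : μ.map f0 ≤ (2 : ℝ≥0∞) • μ := by
  intro s
  have h := congrArg (fun ν : Measure ℝ => ν s) hμ.selfsim
  simp only [Measure.coe_add, Measure.coe_smul, Pi.add_apply, Pi.smul_apply, smul_eq_mul] at h ⊢
  rw [h, mul_add, ← mul_assoc, ← mul_assoc, ENNReal.mul_inv_cancel (by norm_num) (by norm_num),
    one_mul, one_mul]
  exact le_self_add

theorem IsMinkowski.map_f1_le : μ.map f1 ≤ (2 : ℝ≥0∞) • μ := by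
  intro s
  have h := congrArg (fun ν : Measure ℝ => ν s) hμ.selfsim
  simp only [Measure.coe_add, Measure.coe_smul, Pi.add_apply, Pi.smul_apply, smul_eq_mul] at h ⊢
  rw [h, mul_add, ← mul_assoc, ← mul_assoc, ENNReal.mul_inv_cancel (by norm_num) (by norm_num),
    one_mul, one_mul]
  exact le_add_self

end Self

end Pool.Agent.X83.QM
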