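import Pool.Agent.X83.QM.Pot

open MeasureTheory Filter Topology Set
open scoped ENNReal

namespace Pool.Agent.X83.QM

/-- The data of a cylinder. -/
structure Node (μ : Measure ℝ) (Φ : ℝ → ℝ) (d e : ℝ) : Prop where
  hd : 1 ≤ d
  he : 1 ≤ e
  meas : Measurable Φ
  maps : ∀ x ∈ Icc (0 : ℝ) 1, Φ x ∈ Icc (0 : ℝ) 1
  ident : ∀ x ∈ Icc (0 : ℝ) 1, ∀ y ∈ Icc (0 : ℝ) 1,
    |Φ x - Φ y| * (((1 - x) * d + x * e) * ((1 - y) * d + y * e)) = |x - y|
  dom : ∃ W : ℝ≥0∞, W ≠ ⊤ ∧ μ.map Φ ≤ W • μ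

theorem node_root (μ : Measure ℝ) : Node μ id 1 1 where
  hd := le_rfl
  he := le_rfl
  meas := measurable_id
  maps := fun x hx => hx
  ident := fun x _ y _ => by simp
  dom := ⟨1, by norm_num, by rw [Measure.map_id, one_smul]⟩

theorem map_comp_le {μ : Measure ℝ} {Φ f : ℝ → ℝ} (hΦ : Measurable Φ) (hf : Measurable f)
    (h : μ.map f ≤ (2 : ℝ≥0∞) • μ) (hd : ∃ W : ℝ≥0∞, W ≠ ⊤ ∧ μ.map Φ ≤ W • μ) :
    ∃ W : ℝ≥0∞, W ≠ ⊤ ∧ μ.map (Φ ∘ f) ≤ W • μ := by
  obtain ⟨W, hW, hle⟩ := hd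
  refine ⟨2 * W, ENNReal.mul_ne_top (by norm_num) hW, ?_⟩
  rw [← Measure.map_map hΦ hf]
  calc (μ.map f).map Φ ≤ ((2 : ℝ≥0∞) • μ).map Φ := Measure.map_mono h hΦ
    _ = (2 : ℝ≥0∞) • μ.map Φ := by rw [Measure.map_smul]
    _ ≤ (2 : ℝ≥0∞) • (W • μ) := by gcongr
    _ = (2 * W) • μ := by rw [smul_smul]

theorem Node.child0 {μ : Measure ℝ} (hμ : IsMinkowski μ) {Φ : ℝ → ℝ} {d e : ℝ}
    (h : Node μ Φ d e) : Node μ (Φ ∘ f0) d (d + e) where
  hd := h.hd
  he := by linarith [h.hd, h.he]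
  meas := h.meas.comp measurable_f0
  maps := fun x hx => h.maps _ (f0_mem hx)
  ident := fun x hx y hy => by
    have h1 := h.ident _ (f0_mem hx) _ (f0_mem hy)
    have h2 := f0_sub hμ hx hy
    rw [← h2, ← h1, Function.comp, Function.comp]
    have h3 : 0 < 1 + x := by linarith [hx.1]
    have h4 : 0 < 1 + y := by linarith [hy.1]
    unfold f0
    field_simp
    ring
  dom := map_comp_le h.meas measurable_f0 hμ.map_f0_le h.dom

theorem Node.child1 {μ : Measure ℝ} (hμ : IsMinkowski μ) {Φ : ℝ → ℝ} {d e : ℝ}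
    (h : Node μ Φ d e) : Node μ (Φ ∘ f1) e (d + e) where
  hd := h.he
  he := by linarith [h.hd, h.he]
  meas := h.meas.comp measurable_f1
  maps := fun x hx => h.maps _ (f1_mem hx)
  ident := fun x hx y hy => by
    have h1 := h.ident _ (f1_mem hx) _ (f1_mem hy)
    have h2 := f1_sub hμ hx hy
    rw [← h2, ← h1, Function.comp, Function.comp]
    have h3 : 0 < 1 + x := by linarith [hx.1]
    have h4 : 0 < 1 + y := by linarith [hy.1]
    unfold f1
    field_simp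
    ring
  dom := map_comp_le h.meas measurable_f1 hμ.map_f1_le h.dom

theorem mem_uIcc_of {a b c : ℝ} (h : |a - c| + |c - b| = |a - b|) : c ∈ uIcc a b := by
  rw [mem_uIcc]
  rcases le_total a b with hab | hab
  · left
    rw [abs_of_nonpos (a := a - b) (by linarith)] at h
    constructor
    · linarith [le_abs_self (a - c), neg_abs_le (c - b)]
    · linarith [le_abs_self (c - b), neg_abs_le (a - c)]
  · right
    rw [abs_of_nonneg (a := a - b) (by linarith)] at h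
    constructor
    · linarith [le_abs_self (a - c), neg_abs_le (c - b), le_abs_self (c - b), neg_abs_le (a - c)]
    · linarith [le_abs_self (c - b), neg_abs_le (a - c), le_abs_self (a - c), neg_abs_le (c - b)]

theorem exists_clamp (a b x : ℝ) : ∃ c ∈ uIcc a b, ∀ y ∈ uIcc a b, |c - y| ≤ |x - y| := by
  by_cases h1 : x < min a b
  · refine ⟨min a b, ⟨le_rfl, min_le_max⟩, ?_⟩
    rintro y ⟨hy1, hy2⟩
    rw [abs_of_nonpos (by linarith), abs_of_nonpos (by linarith)]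
    linarith
  · by_cases h2 : max a b < x
    · refine ⟨max a b, ⟨min_le_max, le_rfl⟩, ?_⟩
      rintro y ⟨hy1, hy2⟩
      rw [abs_of_nonneg (by linarith), abs_of_nonneg (by linarith)]
      linarith
    · push Not at h1 h2
      exact ⟨x, ⟨h1, h2⟩, fun y _ => le_rfl⟩

section

variable {μ : Measure ℝ} {Φ : ℝ → ℝ} {d e : ℝ} (h : Node μ Φ d e)

include h

theorem Node.len : |Φ 0 - Φ 1| = 1 / (d * e) := by
  have h1 := h.ident 0 ⟨le_rfl, zero_le_one⟩ 1 ⟨zero_le_one, le_rfl⟩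
  have hd : 0 < d := by linarith [h.hd]
  have he : 0 < e := by linarith [h.he]
  rw [eq_div_iff (mul_pos hd he).ne']
  simp only [sub_zero, one_mul, zero_mul, add_zero, sub_self, zero_add, zero_sub, abs_neg,
    abs_one] at h1
  exact h1

theorem Node.Lpos {x : ℝ} (hx : x ∈ Icc (0 : ℝ) 1) : 1 ≤ (1 - x) * d + x * e := by
  nlinarith [h.hd, h.he, hx.1, hx.2]

theorem Node.Lle {m : ℝ} (hd : d ≤ m) (he : e ≤ m) {x : ℝ} (hx : x ∈ Icc (0 : ℝ) 1) :
    (1 - x) * d + x * e ≤ m := by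
  nlinarith [hx.1, hx.2]

theorem Node.lip {x y : ℝ} (hx : x ∈ Icc (0 : ℝ) 1) (hy : y ∈ Icc (0 : ℝ) 1) :
    |Φ x - Φ y| ≤ |x - y| := by
  rw [← h.ident x hx y hy]
  have h1 := h.Lpos hx
  have h2 := h.Lpos hy
  have h3 : 1 ≤ ((1 - x) * d + x * e) * ((1 - y) * d + y * e) := by nlinarith
  nlinarith [abs_nonneg (Φ x - Φ y)]

theorem Node.low {m : ℝ} (hd : d ≤ m) (he : e ≤ m) {x y : ℝ} (hx : x ∈ Icc (0 : ℝ) 1)
    (hy : y ∈ Icc (0 : ℝ) 1) : (1 / m) ^ 2 * |x - y| ≤ |Φ x - Φ y| := by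
  have hm : 0 < m := by linarith [h.hd]
  rw [← h.ident x hx y hy, one_div, inv_pow, inv_mul_le_iff₀ (by positivity)]
  have h1 := h.Lpos hx
  have h2 := h.Lpos hy
  have h3 := h.Lle hd he hx
  have h4 := h.Lle hd he hy
  have h5 : ((1 - x) * d + x * e) * ((1 - y) * d + y * e) ≤ m ^ 2 := by nlinarith
  nlinarith [abs_nonneg (Φ x - Φ y)]

theorem Node.cont : ContinuousOn Φ (Icc 0 1) := by
  have : LipschitzOnWith 1 Φ (Icc 0 1) := by
    apply LipschitzOnWith.of_dist_le_mul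
    intro x hx y hy
    rw [Real.dist_eq, Real.dist_eq]
    simpa using h.lip hx hy
  exact this.continuousOn

theorem Node.mem {x : ℝ} (hx : x ∈ Icc (0 : ℝ) 1) : Φ x ∈ uIcc (Φ 0) (Φ 1) := by
  apply mem_uIcc_of
  have hd : 0 < d := by linarith [h.hd]
  have he : 0 < e := by linarith [h.he]
  have hL := h.Lpos hx
  have hL0 : 0 < (1 - x) * d + x * e := by linarith
  have h1 := h.ident 0 ⟨le_rfl, zero_le_one⟩ x hx
  have h2 := h.ident x hx 1 ⟨zero_le_one, le_rfl⟩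
  have e1 : |Φ 0 - Φ x| = x / (d * ((1 - x) * d + x * e)) := by
    rw [eq_div_iff (by positivity)]
    simp only [sub_zero, one_mul, zero_mul, add_zero, zero_sub, abs_neg] at h1
    rw [h1, abs_of_nonneg hx.1]
  have e2 : |Φ x - Φ 1| = (1 - x) / (((1 - x) * d + x * e) * e) := by
    rw [eq_div_iff (by positivity)]
    simp only [sub_self, zero_mul, zero_add, one_mul] at h2
    rw [h2, abs_of_nonpos (by linarith [hx.2])]; ring
  rw [e1, e2, h.len]
  have hLe : x * e + (1 - x) * d = (1 - x) * d + x * e := by ring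
  set L := (1 - x) * d + x * e with hLd
  have e3 : x / (d * L) + (1 - x) / (L * e) = (x * e + (1 - x) * d) / (d * L * e) := by
    field_simp
  rw [e3, hLe]
  field_simp

theorem Node.surj : uIcc (Φ 0) (Φ 1) ⊆ Φ '' Icc 0 1 := by
  have h1 : ContinuousOn Φ (uIcc 0 1) := by rw [uIcc_of_le zero_le_one]; exact h.cont
  have := intermediate_value_uIcc h1
  rwa [uIcc_of_le (zero_le_one' ℝ)] at this

theorem Node.pot (hμ : IsMinkowski μ) {m : ℝ} (hd : d ≤ m) (he : e ≤ m) (x : ℝ) :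
    ∫⁻ t, ker (x - Φ t) ∂μ ≤ 6 * bb + ENNReal.ofReal (2 * Real.log m) := by
  have := hμ.prob
  have hm : 0 < m := by linarith [h.hd]
  obtain ⟨c, hc, hcy⟩ := exists_clamp (Φ 0) (Φ 1) x
  obtain ⟨s, hs, rfl⟩ := h.surj hc
  calc ∫⁻ t, ker (x - Φ t) ∂μ ≤ ∫⁻ t, (ker (s - t) + ENNReal.ofReal (2 * Real.log m)) ∂μ := by
        apply lintegral_mono_ae
        filter_upwards [hμ.ae_mem] with t ht
        refine (ker_anti (hcy _ (h.mem ht))).trans ?_
        have e1 : 2 * Real.log m = -Real.log ((1 / m) ^ 2) := by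
          rw [Real.log_pow, one_div, Real.log_inv]; push_cast; ring
        rw [e1]
        exact ker_le (by positivity) (h.low hd he hs ht)
    _ = ∫⁻ t, ker (s - t) ∂μ + ENNReal.ofReal (2 * Real.log m) := by
        rw [lintegral_add_right _ measurable_const]; simp
    _ ≤ _ := by gcongr; exact pot_bound hμ hs

/-- The two halves. -/
theorem Node.union : uIcc (Φ 0) (Φ 1) = uIcc (Φ 0) (Φ (1 / 2)) ∪ uIcc (Φ 1) (Φ (1 / 2)) := by
  have h1 : Φ (1 / 2) ∈ uIcc (Φ 0) (Φ 1) := h.mem ⟨by norm_num, by norm_num⟩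
  rw [uIcc_comm (Φ 1) (Φ (1 / 2))]
  apply Subset.antisymm uIcc_subset_uIcc_union_uIcc
  apply union_subset
  · exact uIcc_subset_uIcc left_mem_uIcc h1
  · exact uIcc_subset_uIcc h1 right_mem_uIcc

theorem Node.restrict (ω : Measure ℝ) [NullSingletonClass ω] :
    ω.restrict (uIcc (Φ 0) (Φ 1)) = ω.restrict (uIcc (Φ 0) (Φ (1 / 2))) +
      ω.restrict (uIcc (Φ 1) (Φ (1 / 2))) := by
  rw [h.union]
  apply Measure.restrict_union₀ _ measurableSet_uIcc.nullMeasurableSet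
  have h1 : Φ (1 / 2) ∈ uIcc (Φ 0) (Φ 1) := h.mem ⟨by norm_num, by norm_num⟩
  have : uIcc (Φ 0) (Φ (1 / 2)) ∩ uIcc (Φ 1) (Φ (1 / 2)) ⊆ {Φ (1 / 2)} := by
    rintro z ⟨hz1, hz2⟩
    rw [mem_singleton_iff]
    rw [mem_uIcc] at h1 hz1 hz2
    rcases h1 with h1 | h1 <;> rcases hz1 with hz1 | hz1 <;> rcases hz2 with hz2 | hz2 <;> linarith
  exact measure_mono_null this (measure_singleton _)

end

end Pool.Agent.X83.QM
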