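import Pool.Agent.X83.QM.Poly

open MeasureTheory Filter Topology Set Polynomial
open scoped ENNReal Real

namespace Pool.Agent.X83.QM

section

variable {μ : Measure ℝ} (hμ : IsMinkowski μ)

include hμ

theorem integrable_poly (P : ℝ[X]) : Integrable (fun x => P.eval x) μ := by
  have := hμ.prob
  rw [← Measure.restrict_eq_self_of_ae_mem hμ.ae_mem]
  exact P.continuous.integrableOn_Icc

theorem integrable_poly_mul (P Q : ℝ[X]) : Integrable (fun x => P.eval x * Q.eval x) μ := by
  have := integrable_poly hμ (P * Q)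
  simpa only [eval_mul] using this

variable {p : ℕ → ℝ[X]} (hp : IsONP μ p)

include hp

theorem orth (n m : ℕ) (hm : m ≤ n) : ∀ R : ℝ[X], R.degree < m →
    ∫ x, R.eval x * (p n).eval x ∂μ = 0 := by
  induction m with
  | zero =>
    intro R hR
    have h := (Polynomial.degree_lt_iff_coeff_zero R 0).1 hR
    have : R = 0 := Polynomial.ext fun k => by rw [h k (Nat.zero_le k), coeff_zero]
    simp [this]
  | succ m ih =>
    intro R hR
    have hγ := (hp.1 m).2
    set c := R.coeff m / (p m).leadingCoeff with hc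
    set R' := R - C c * p m with hR'
    have hdeg : R'.degree < m := by
      rw [Polynomial.degree_lt_iff_coeff_zero] at hR ⊢
      intro k hk
      rw [hR', coeff_sub, coeff_C_mul]
      rcases Nat.eq_or_lt_of_le hk with h | h
      · rw [← h]
        have : (p m).coeff m = (p m).leadingCoeff := by
          rw [leadingCoeff, (hp.1 m).1]
        rw [this, hc, div_mul_cancel₀ _ hγ.ne', sub_self]
      · rw [hR k (by omega), coeff_eq_zero_of_natDegree_lt (by rw [(hp.1 m).1]; exact h)]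
        ring
    have h1 := ih (by omega) R' hdeg
    have h2 : ∫ x, (p m).eval x * (p n).eval x ∂μ = 0 := by
      rw [hp.2 m n, if_neg (by omega)]
    have h3 : ∀ x, R.eval x * (p n).eval x =
        R'.eval x * (p n).eval x + c * ((p m).eval x * (p n).eval x) := by
      intro x
      rw [hR', eval_sub, eval_mul, eval_C]; ring
    simp_rw [h3]
    rw [integral_add (integrable_poly_mul hμ _ _) ((integrable_poly_mul hμ _ _).const_mul c),
      integral_const_mul, h1, h2]
    ring

theorem gamma_low (n : ℕ) (hn : 1 ≤ n) : (4 : ℝ) ^ n / 2 ≤ (p n).leadingCoeff := by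
  have := hμ.prob
  set V : ℝ[X] := (Chebyshev.T ℝ n).comp (C 2 * X - 1) with hV
  have hL1 : (C 2 * X - 1 : ℝ[X]).natDegree = 1 := by
    have : (C 2 * X - 1 : ℝ[X]) = C 2 * X + C (-1) := by simp [sub_eq_add_neg]
    rw [this, natDegree_linear (by norm_num)]
  have hL2 : (C 2 * X - 1 : ℝ[X]).leadingCoeff = 2 := by
    have : (C 2 * X - 1 : ℝ[X]) = C 2 * X + C (-1) := by simp [sub_eq_add_neg]
    rw [this, leadingCoeff_linear (by norm_num)]
  have hVd : V.natDegree = n := by
    rw [hV, natDegree_comp, hL1, Chebyshev.natDegree_T]; simp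
  have hVl : V.leadingCoeff = 4 ^ n / 2 := by
    rw [hV, leadingCoeff_comp (by rw [hL1]; norm_num), hL2, Chebyshev.leadingCoeff_T,
      Chebyshev.natDegree_T]
    simp only [Int.natAbs_natCast]
    obtain ⟨k, rfl⟩ := Nat.exists_eq_add_of_le hn
    rw [show (4 : ℝ) = 2 * 2 by norm_num, mul_pow, Nat.add_sub_cancel_left]
    rw [pow_add, pow_one]; ring
  have hVb : ∀ x ∈ Icc (0 : ℝ) 1, |V.eval x| ≤ 1 := by
    intro x hx
    rw [hV, eval_comp]
    apply Chebyshev.abs_eval_T_real_le_one
    simp only [eval_sub, eval_mul, eval_C, eval_X, eval_one]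
    rw [abs_le]; constructor <;> linarith [hx.1, hx.2]
  have hγ := (hp.1 n).2
  set c := V.leadingCoeff / (p n).leadingCoeff with hc
  set R := V - C c * p n with hR
  have hdeg : R.degree < n := by
    rw [Polynomial.degree_lt_iff_coeff_zero]
    intro k hk
    rw [hR, coeff_sub, coeff_C_mul]
    rcases Nat.eq_or_lt_of_le hk with h | h
    · rw [← h]
      have e1 : (p n).coeff n = (p n).leadingCoeff := by
        rw [leadingCoeff, (hp.1 n).1]
      have e2 : V.coeff n = V.leadingCoeff := by rw [leadingCoeff, hVd]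
      rw [e1, e2, hc, div_mul_cancel₀ _ hγ.ne', sub_self]
    · rw [coeff_eq_zero_of_natDegree_lt (by rw [hVd]; exact h),
        coeff_eq_zero_of_natDegree_lt (by rw [(hp.1 n).1]; exact h)]
      ring
  have h1 := orth hμ hp n n le_rfl R hdeg
  have h2 : ∫ x, (p n).eval x * (p n).eval x ∂μ = 1 := by rw [hp.2 n n, if_pos rfl]
  have h3 : ∫ x, V.eval x * (p n).eval x ∂μ = c := by
    have h3 : ∀ x, V.eval x * (p n).eval x =
        R.eval x * (p n).eval x + c * ((p n).eval x * (p n).eval x) := by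
      intro x
      rw [hR, eval_sub, eval_mul, eval_C]; ring
    simp_rw [h3]
    rw [integral_add (integrable_poly_mul hμ _ _) ((integrable_poly_mul hμ _ _).const_mul c),
      integral_const_mul, h1, h2]
    ring
  have h4 : ∫ x, V.eval x * (p n).eval x ∂μ ≤ ∫ x, (1 / 2 + 1 / 2 * ((p n).eval x * (p n).eval x)) ∂μ := by
    apply integral_mono_ae (integrable_poly_mul hμ _ _)
      ((integrable_const _).add ((integrable_poly_mul hμ _ _).const_mul _))
    filter_upwards [hμ.ae_mem] with x hx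
    have h5 := hVb x hx
    have h6 : V.eval x * (p n).eval x ≤ |(p n).eval x| := by
      calc V.eval x * (p n).eval x ≤ |V.eval x * (p n).eval x| := le_abs_self _
        _ = |V.eval x| * |(p n).eval x| := abs_mul _ _
        _ ≤ 1 * |(p n).eval x| := by gcongr
        _ = _ := one_mul _
    have h7 := sq_abs ((p n).eval x)
    show _ ≤ 1 / 2 + 1 / 2 * ((p n).eval x * (p n).eval x)
    nlinarith [sq_nonneg (|(p n).eval x| - 1)]
  have h8 : ∫ x, (1 / 2 + 1 / 2 * ((p n).eval x * (p n).eval x)) ∂μ = 1 := by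
    rw [integral_add (integrable_const _) ((integrable_poly_mul hμ _ _).const_mul _),
      integral_const_mul, h2]
    simp; norm_num
  rw [h3, h8, hc, div_le_one hγ, hVl] at h4
  exact h4

theorem gamma_up {c : ℝ} (hc : 0 ≤ c) {ρ : Measure ℝ} [IsProbabilityMeasure ρ]
    (h01 : ρ (Icc 0 1)ᶜ = 0) {W : ℝ≥0∞} (hW : W ≠ ⊤) (hle : ρ ≤ W • μ)
    (hpot : ∀ x ∈ Icc (0 : ℝ) 1, ∫⁻ y, ker (x - y) ∂ρ ≤ ENNReal.ofReal c) (n : ℕ) :
    Real.exp (-(2 * (n * c))) ≤ W.toReal * ((p n).leadingCoeff⁻¹) ^ 2 := by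
  have hγ := (hp.1 n).2
  set P : ℝ[X] := C ((p n).leadingCoeff⁻¹) * p n with hP
  have hPm : P.Monic := by
    rw [Monic, hP, leadingCoeff_mul, leadingCoeff_C, inv_mul_cancel₀ hγ.ne']
  have hPd : P.natDegree = n := by
    rw [hP, natDegree_C_mul (inv_ne_zero hγ.ne'), (hp.1 n).1]
  have h1 := poly_low h01 hc hpot P hPm
  rw [hPd] at h1
  have h2 : ∫⁻ x, ENNReal.ofReal (P.eval x ^ 2) ∂ρ ≤
      W * ∫⁻ x, ENNReal.ofReal (P.eval x ^ 2) ∂μ := by
    calc _ ≤ ∫⁻ x, ENNReal.ofReal (P.eval x ^ 2) ∂(W • μ) := lintegral_mono' hle le_rfl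
      _ = _ := by rw [lintegral_smul_measure]; rfl
  have h3 : ∫⁻ x, ENNReal.ofReal (P.eval x ^ 2) ∂μ = ENNReal.ofReal (((p n).leadingCoeff⁻¹) ^ 2) := by
    have hi : Integrable (fun x => P.eval x ^ 2) μ := by
      have := integrable_poly_mul hμ P P
      simpa only [sq] using this
    rw [← ofReal_integral_eq_lintegral_ofReal hi (Eventually.of_forall fun x => sq_nonneg _)]
    congr 1
    have : ∀ x, P.eval x ^ 2 = ((p n).leadingCoeff⁻¹) ^ 2 * ((p n).eval x * (p n).eval x) := by
      intro x; rw [hP, eval_mul, eval_C]; ring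
    simp_rw [this]
    rw [integral_const_mul, hp.2 n n, if_pos rfl, mul_one]
  rw [h3] at h2
  have h4 := h1.trans h2
  rw [← ENNReal.ofReal_toReal hW, ← ENNReal.ofReal_mul ENNReal.toReal_nonneg] at h4
  exact (ENNReal.ofReal_le_ofReal_iff (by positivity)).1 h4

variable {a b : ℕ → ℝ} (hr : IsRecurrence p a b)

include hr

theorem prod_a (n : ℕ) : ∏ i ∈ Finset.range n, a (i + 1) = ((p n).leadingCoeff)⁻¹ := by
  have := hμ.prob
  have hγ0 : (p 0).leadingCoeff = 1 := by
    have h1 := hp.1 0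
    have h2 : p 0 = C ((p 0).coeff 0) := eq_C_of_natDegree_eq_zero h1.1
    have h3 : (p 0).leadingCoeff = (p 0).coeff 0 := by rw [leadingCoeff, h1.1]
    have h4 := hp.2 0 0
    rw [if_pos rfl, h2] at h4
    simp only [eval_C, integral_const, smul_eq_mul] at h4
    simp only [Measure.real, measure_univ, ENNReal.toReal_one, one_mul] at h4
    have h5 : 0 < (p 0).coeff 0 := by rw [← h3]; exact h1.2
    rw [h3]
    nlinarith
  have hstep : ∀ n, (p n).leadingCoeff = a (n + 1) * (p (n + 1)).leadingCoeff := by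
    intro n
    have e1 : (X * p n).coeff (n + 1) = (p n).leadingCoeff := by
      rw [coeff_X_mul, leadingCoeff, (hp.1 n).1]
    have e2 : (p (n + 1)).coeff (n + 1) = (p (n + 1)).leadingCoeff := by
      rw [leadingCoeff, (hp.1 (n + 1)).1]
    have e3 : (p n).coeff (n + 1) = 0 :=
      coeff_eq_zero_of_natDegree_lt (by rw [(hp.1 n).1]; omega)
    cases n with
    | zero =>
      rw [← e1, hr.2.1, coeff_add, coeff_C_mul, coeff_C_mul, e3, e2]; ring
    | succ n =>
      have e4 : (p n).coeff (n + 1 + 1) = 0 :=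
        coeff_eq_zero_of_natDegree_lt (by rw [(hp.1 n).1]; omega)
      rw [← e1, hr.2.2 (n + 1) (by omega), coeff_add, coeff_add, coeff_C_mul, coeff_C_mul,
        coeff_C_mul, e3, e2, Nat.add_sub_cancel, e4]
      ring
  induction n with
  | zero => simp [hγ0]
  | succ n ih =>
    rw [Finset.prod_range_succ, ih, hstep n]
    have h1 := hr.1 (n + 1) (by omega)
    have h2 := (hp.1 (n + 1)).2
    field_simp

theorem tendsto_prod :
    Tendsto (fun n : ℕ => (∏ i ∈ Finset.range n, a (i + 1)) ^ (1 / n : ℝ)) atTop (𝓝 (1 / 4)) := by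
  have hlim : ∀ w : ℝ, 0 < w → Tendsto (fun n : ℕ => w ^ (1 / n : ℝ)) atTop (𝓝 1) := by
    intro w hw
    have h1 := (Real.continuousAt_const_rpow (b := 0) hw.ne').tendsto.comp
      (tendsto_one_div_atTop_nhds_zero_nat (𝕜 := ℝ))
    rw [Real.rpow_zero] at h1
    exact h1
  have hroot : ∀ w q : ℝ, 0 < w → 0 < q → ∀ n : ℕ, 1 ≤ n →
      (w * q ^ n) ^ (1 / n : ℝ) = w ^ (1 / n : ℝ) * q := by
    intro w q hw hq n hn
    rw [Real.mul_rpow hw.le (by positivity), one_div, Real.pow_rpow_inv_natCast hq.le (by omega)]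
  have hpos : ∀ n, 0 < ∏ i ∈ Finset.range n, a (i + 1) := fun n =>
    Finset.prod_pos fun i _ => hr.1 _ (by omega)
  rw [tendsto_order]
  constructor
  · intro l hl
    -- choose `ε`
    have h1 : Tendsto (fun ε : ℝ => Real.exp (-(Real.log 4 + ε))) (𝓝[>] 0) (𝓝 (1 / 4)) := by
      have e : (1 / 4 : ℝ) = Real.exp (-(Real.log 4 + 0)) := by
        rw [add_zero, Real.exp_neg, Real.exp_log (by norm_num)]; norm_num
      rw [e]
      have : Continuous (fun ε : ℝ => Real.exp (-(Real.log 4 + ε))) := by fun_prop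
      exact (this.tendsto 0).mono_left nhdsWithin_le_nhds
    have h2 := (h1.eventually (lt_mem_nhds hl)).and self_mem_nhdsWithin
    obtain ⟨ε, hε1, hε⟩ := h2.exists
    obtain ⟨ρ, r1, r2, ⟨W, hW, r3⟩, r4⟩ := exists_rho hμ hε
    have hlog4 : 0 ≤ Real.log 4 := Real.log_nonneg (by norm_num)
    set c := Real.log 4 + ε with hc
    have hc0 : 0 ≤ c := by positivity
    set w : ℝ := (√(W.toReal + 1))⁻¹ with hw
    have hWp : 0 < W.toReal + 1 := by have := ENNReal.toReal_nonneg (a := W); linarith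
    have hw0 : 0 < w := by rw [hw]; exact inv_pos.2 (Real.sqrt_pos.2 hWp)
    have hlow : ∀ n : ℕ, w * Real.exp (-c) ^ n ≤ ∏ i ∈ Finset.range n, a (i + 1) := by
      intro n
      have h3 := gamma_up hμ hp hc0 r2 hW r3 r4 n
      rw [← prod_a hμ hp hr] at h3
      set g := ∏ i ∈ Finset.range n, a (i + 1) with hg
      have hg0 : 0 < g := hpos n
      apply le_of_sq_le_sq _ hg0.le
      have e1 : (w * Real.exp (-c) ^ n) ^ 2 = (W.toReal + 1)⁻¹ * Real.exp (-(2 * (n * c))) := by
        rw [mul_pow, hw, inv_pow, Real.sq_sqrt hWp.le, ← pow_mul, ← Real.exp_nat_mul]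
        congr 2; push_cast; ring
      rw [e1, inv_mul_le_iff₀ hWp]
      nlinarith [sq_nonneg g]
    have h5 : Tendsto (fun n : ℕ => w ^ (1 / n : ℝ) * Real.exp (-c)) atTop (𝓝 (1 * Real.exp (-c))) :=
      (hlim w hw0).mul_const _
    rw [one_mul] at h5
    filter_upwards [h5.eventually (lt_mem_nhds hε1), eventually_ge_atTop 1] with n hn hn1
    refine lt_of_lt_of_le hn ?_
    rw [← hroot w _ hw0 (Real.exp_pos _) n hn1]
    exact Real.rpow_le_rpow (by positivity) (hlow n) (by positivity)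
  · intro u hu
    have h5 : Tendsto (fun n : ℕ => (2 : ℝ) ^ (1 / n : ℝ) * (1 / 4)) atTop (𝓝 (1 * (1 / 4))) :=
      (hlim 2 (by norm_num)).mul_const _
    rw [one_mul] at h5
    filter_upwards [h5.eventually (gt_mem_nhds hu), eventually_ge_atTop 1] with n hn hn1
    refine lt_of_le_of_lt ?_ hn
    rw [← hroot 2 _ (by norm_num) (by norm_num) n hn1]
    apply Real.rpow_le_rpow (hpos n).le _ (by positivity)
    rw [prod_a hμ hp hr]
    have h6 := gamma_low hμ hp n hn1
    have h7 : (2 : ℝ) * (1 / 4) ^ n = (4 ^ n / 2)⁻¹ := by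
      rw [one_div, inv_pow]; field_simp
    rw [h7]
    exact inv_anti₀ (by positivity) h6

end

end Pool.Agent.X83.QM
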