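import Pool.Agent.X83.QM.CapLow

open MeasureTheory Filter Topology Set Polynomial
open scoped ENNReal Real

namespace Pool.Agent.X83.QM

/-- Clamping to `[0,1]`. -/
noncomputable def clp (t : ℝ) : ℝ := max 0 (min 1 t)

theorem clp_mem (t : ℝ) : clp t ∈ Icc (0 : ℝ) 1 :=
  ⟨le_max_left _ _, max_le zero_le_one (min_le_left _ _)⟩

theorem clp_dist {x : ℝ} (hx : x ∈ Icc (0 : ℝ) 1) (t : ℝ) : |x - clp t| ≤ |x - t| := by
  unfold clp
  rcases le_total t 0 with h | h
  · rw [min_eq_right (by linarith), max_eq_left h, sub_zero, abs_of_nonneg hx.1,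
      abs_of_nonneg (by linarith [hx.1])]
    linarith
  · rcases le_total t 1 with h' | h'
    · rw [min_eq_right h', max_eq_right h]
    · rw [min_eq_left h', max_eq_right zero_le_one, abs_of_nonpos (by linarith [hx.2]),
        abs_of_nonpos (by linarith [hx.2])]
      linarith

theorem roots_bound (P : ℝ[X]) (hP : P.Monic) : ∃ s : Multiset ℝ, Multiset.card s = P.natDegree ∧
    (∀ r ∈ s, r ∈ Icc (0 : ℝ) 1) ∧
    ∀ x ∈ Icc (0 : ℝ) 1, (s.map fun r => |x - r|).prod ≤ |P.eval x| := by
  set Q := P.map (algebraMap ℝ ℂ) with hQ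
  have hQm : Q.Monic := hP.map _
  have hsp : Q.Splits := IsAlgClosed.splits Q
  refine ⟨Q.roots.map fun z => clp z.re, ?_, ?_, ?_⟩
  · rw [Multiset.card_map, ← hsp.natDegree_eq_card_roots, hQ, natDegree_map]
  · intro r hr
    obtain ⟨z, _, rfl⟩ := Multiset.mem_map.1 hr
    exact clp_mem _
  · intro x hx
    have h1 : |P.eval x| = (Q.roots.map fun z => ‖(x : ℂ) - z‖).prod := by
      have h2 : Q.eval (x : ℂ) = ((P.eval x : ℝ) : ℂ) := by
        rw [hQ, eval_map_algebraMap]
        exact aeval_algebraMap_apply_eq_algebraMap_eval x P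
      rw [← Real.norm_eq_abs, ← Complex.norm_real, ← h2, hsp.eval_eq_prod_roots_of_monic hQm]
      have : ∀ t : Multiset ℂ, ‖(t.map fun z => (x : ℂ) - z).prod‖ =
          (t.map fun z => ‖(x : ℂ) - z‖).prod := by
        intro t
        induction t using Multiset.induction with
        | empty => simp
        | cons a t ih => simp [ih]
      exact this _
    rw [h1, Multiset.map_map]
    apply Multiset.prod_map_le_prod_map₀
    · intro i _; exact abs_nonneg _
    · intro z _
      simp only [Function.comp]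
      refine (clp_dist hx _).trans ?_
      have := Complex.abs_re_le_norm ((x : ℂ) - z)
      simpa using this

theorem prod_exp (s : Multiset ℝ) (hs : ∀ r ∈ s, r ∈ Icc (0 : ℝ) 1) {x : ℝ}
    (hx : x ∈ Icc (0 : ℝ) 1) (hxs : x ∉ s) :
    (s.map fun r => |x - r|).prod = Real.exp (-(s.map fun r => -Real.log |x - r|).sum) ∧
      (s.map fun r => ker (x - r)).sum = ENNReal.ofReal (s.map fun r => -Real.log |x - r|).sum ∧
      0 ≤ (s.map fun r => -Real.log |x - r|).sum := by
  induction s using Multiset.induction with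
  | empty => simp
  | cons a s ih =>
    rw [Multiset.mem_cons, not_or] at hxs
    obtain ⟨h1, h2, h3⟩ := ih (fun r hr => hs r (Multiset.mem_cons_of_mem hr)) hxs.2
    have ha := hs a (Multiset.mem_cons_self a s)
    have hne : x - a ≠ 0 := sub_ne_zero.2 hxs.1
    have hpos : 0 < |x - a| := abs_pos.2 hne
    have hnn : 0 ≤ -Real.log |x - a| := by
      rw [neg_nonneg]
      apply Real.log_nonpos (abs_nonneg _)
      rw [abs_le]; constructor <;> linarith [hx.1, hx.2, ha.1, ha.2]
    simp only [Multiset.map_cons, Multiset.prod_cons, Multiset.sum_cons]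
    refine ⟨?_, ?_, by linarith⟩
    · rw [h1, neg_add, neg_neg, Real.exp_add, Real.exp_log hpos]
    · rw [h2, ENNReal.ofReal_add hnn h3]
      congr 1
      unfold ker; rw [if_neg hne]

theorem lint_sum {ρ : Measure ℝ} {c : ℝ≥0∞}
    (hpot : ∀ x ∈ Icc (0 : ℝ) 1, ∫⁻ y, ker (x - y) ∂ρ ≤ c) (s : Multiset ℝ)
    (hs : ∀ r ∈ s, r ∈ Icc (0 : ℝ) 1) :
    ∫⁻ x, (s.map fun r => ker (x - r)).sum ∂ρ ≤ Multiset.card s * c := by
  induction s using Multiset.induction with
  | empty => simp
  | cons a s ih =>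
    simp only [Multiset.map_cons, Multiset.sum_cons, Multiset.card_cons]
    have hk : Measurable fun x => ker (x - a) :=
      measurable_ker.comp (measurable_id.sub measurable_const)
    rw [lintegral_add_left hk]
    push_cast
    rw [add_mul, one_mul, add_comm]
    refine add_le_add (ih fun r hr => hs r (Multiset.mem_cons_of_mem hr)) ?_
    refine le_trans (le_of_eq ?_) (hpot a (hs a (Multiset.mem_cons_self a s)))
    congr 1
    funext y
    exact le_antisymm (ker_anti (abs_sub_comm _ _).le) (ker_anti (abs_sub_comm _ _).le)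

theorem poly_low {ρ : Measure ℝ} [IsProbabilityMeasure ρ] (h01 : ρ (Icc 0 1)ᶜ = 0) {c : ℝ}
    (hc : 0 ≤ c) (hpot : ∀ x ∈ Icc (0 : ℝ) 1, ∫⁻ y, ker (x - y) ∂ρ ≤ ENNReal.ofReal c)
    (P : ℝ[X]) (hP : P.Monic) :
    ENNReal.ofReal (Real.exp (-(2 * (P.natDegree * c)))) ≤
      ∫⁻ x, ENNReal.ofReal (P.eval x ^ 2) ∂ρ := by
  obtain ⟨s, hs, hs01, hsP⟩ := roots_bound P hP
  set n := P.natDegree with hn
  set m : ℝ := n * c with hm
  have hm0 : 0 ≤ m := by positivity
  set u : ℝ → ℝ≥0∞ := fun x => (s.map fun r => ker (x - r)).sum with hu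
  have hmem : ∀ᵐ x ∂ρ, x ∈ Icc (0 : ℝ) 1 := by rw [ae_iff]; exact h01
  have hpt : ∀ x ∈ Icc (0 : ℝ) 1, ENNReal.ofReal (Real.exp (-(2 * m)) * (1 + 2 * m)) ≤
      ENNReal.ofReal (P.eval x ^ 2) + ENNReal.ofReal (Real.exp (-(2 * m)) * 2) * u x := by
    intro x hx
    by_cases hxs : x ∈ s
    · have : u x = ⊤ := by
        rw [hu]
        obtain ⟨t, rfl⟩ := Multiset.exists_cons_of_mem hxs
        simp [ker]
      rw [this, ENNReal.mul_top (by
        rw [ne_eq, ENNReal.ofReal_eq_zero, not_le]; positivity)]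
      simp
    · obtain ⟨h1, h2, h3⟩ := prod_exp s hs01 hx hxs
      set U := (s.map fun r => -Real.log |x - r|).sum with hU
      have hux : u x = ENNReal.ofReal U := h2
      rw [hux, ← ENNReal.ofReal_mul (by positivity), ← ENNReal.ofReal_add (sq_nonneg _) (by positivity)]
      apply ENNReal.ofReal_le_ofReal
      have h4 := hsP x hx
      rw [h1] at h4
      have h5 : Real.exp (-(2 * U)) ≤ P.eval x ^ 2 := by
        have : Real.exp (-(2 * U)) = Real.exp (-U) ^ 2 := by
          rw [← Real.exp_nat_mul]; congr 1; push_cast; ring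
        rw [this, ← sq_abs (P.eval x)]
        gcongr
      have h6 : Real.exp (-(2 * m)) * (1 + 2 * m - 2 * U) ≤ Real.exp (-(2 * U)) := by
        have : Real.exp (-(2 * U)) = Real.exp (-(2 * m)) * Real.exp (2 * m - 2 * U) := by
          rw [← Real.exp_add]; congr 1; ring
        rw [this]
        gcongr
        have := Real.add_one_le_exp (2 * m - 2 * U)
        linarith
      nlinarith
  have hum : Measurable fun x => ENNReal.ofReal (P.eval x ^ 2) := by
    have : Continuous fun x => P.eval x := P.continuous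
    fun_prop
  have hint : ENNReal.ofReal (Real.exp (-(2 * m)) * (1 + 2 * m)) ≤
      ∫⁻ x, ENNReal.ofReal (P.eval x ^ 2) ∂ρ +
        ENNReal.ofReal (Real.exp (-(2 * m)) * 2) * ENNReal.ofReal m := by
    calc ENNReal.ofReal (Real.exp (-(2 * m)) * (1 + 2 * m))
        = ∫⁻ _, ENNReal.ofReal (Real.exp (-(2 * m)) * (1 + 2 * m)) ∂ρ := by simp
      _ ≤ ∫⁻ x, (ENNReal.ofReal (P.eval x ^ 2) +
          ENNReal.ofReal (Real.exp (-(2 * m)) * 2) * u x) ∂ρ := by
          apply lintegral_mono_ae
          filter_upwards [hmem] with x hx using hpt x hx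
      _ = ∫⁻ x, ENNReal.ofReal (P.eval x ^ 2) ∂ρ +
          ENNReal.ofReal (Real.exp (-(2 * m)) * 2) * ∫⁻ x, u x ∂ρ := by
          rw [lintegral_add_left hum, lintegral_const_mul' _ _ ENNReal.ofReal_ne_top]
      _ ≤ _ := by
          gcongr
          refine (lint_sum hpot s hs01).trans (le_of_eq ?_)
          rw [hs, hm, ENNReal.ofReal_mul (by positivity), ENNReal.ofReal_natCast]
  have e : Real.exp (-(2 * m)) * (1 + 2 * m) =
      Real.exp (-(2 * m)) + Real.exp (-(2 * m)) * 2 * m := by ring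
  rw [← ENNReal.ofReal_mul (by positivity), e, ENNReal.ofReal_add (by positivity) (by positivity)] at hint
  exact (ENNReal.add_le_add_iff_right ENNReal.ofReal_ne_top).1 hint

end Pool.Agent.X83.QM
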