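import Pool.Agent.X83.QM.K

open MeasureTheory Filter Topology Set
open scoped ENNReal

namespace Pool.Agent.X83.QM

/-- The kernel. -/
noncomputable def ker (t : ℝ) : ℝ≥0∞ := if t = 0 then ⊤ else ENNReal.ofReal (-Real.log |t|)

theorem measurable_ker : Measurable ker := by
  unfold ker
  exact Measurable.ite (measurableSet_singleton 0) measurable_const (by fun_prop)

theorem ker_anti {s t : ℝ} (h : |s| ≤ |t|) : ker t ≤ ker s := by
  unfold ker
  split_ifs with h1 h2 h2
  · exact le_rfl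
  · exfalso; rw [h1] at h; simp at h; exact h2 h
  · exact le_top
  · apply ENNReal.ofReal_le_ofReal
    apply neg_le_neg
    exact Real.log_le_log (abs_pos.2 h2) h

theorem ker_mul {c t : ℝ} (hc : 0 < c) : ker (c * t) ≤ ker t + ENNReal.ofReal (-Real.log c) := by
  unfold ker
  by_cases ht : t = 0
  · simp [ht]
  · rw [if_neg (mul_ne_zero hc.ne' ht), if_neg ht, abs_mul, abs_of_pos hc,
      Real.log_mul hc.ne' (abs_pos.2 ht).ne', neg_add, add_comm]
    exact ENNReal.ofReal_add_le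

theorem ker_le {c s t : ℝ} (hc : 0 < c) (h : c * |t| ≤ |s|) :
    ker s ≤ ker t + ENNReal.ofReal (-Real.log c) := by
  refine le_trans (ker_anti ?_) (ker_mul hc)
  rwa [abs_mul, abs_of_pos hc]

theorem ker_le' {c s : ℝ} (hc : 0 < c) (h : c ≤ |s|) :
    ker s ≤ ENNReal.ofReal (-Real.log c) := by
  have : ker c = ENNReal.ofReal (-Real.log c) := by
    unfold ker; rw [if_neg hc.ne', abs_of_pos hc]
  rw [← this]
  apply ker_anti
  rwa [abs_of_pos hc]

theorem kT_le (T : ℝ≥0∞) {c s t : ℝ} (hc : 0 < c) (h : c * |t| ≤ |s|) :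
    min (ker s) T ≤ min (ker t) T + ENNReal.ofReal (-Real.log c) := by
  rcases le_total (ker t) T with h1 | h1
  · rw [min_eq_left h1]
    exact (min_le_left _ _).trans (ker_le hc h)
  · rw [min_eq_right h1]
    exact (min_le_right _ _).trans le_self_add

theorem half_lemma {a b : ℝ≥0∞} (ha : a ≠ ⊤) (h : a ≤ 2⁻¹ * a + b) : a ≤ 2 * b := by
  have h1 : a = 2⁻¹ * a + 2⁻¹ * a := by
    rw [← add_mul, ENNReal.inv_two_add_inv_two, one_mul]
  have h2 : 2⁻¹ * a ≠ ⊤ := ENNReal.mul_ne_top (by norm_num) ha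
  have h3 : 2⁻¹ * a ≤ b := by
    rw [← ENNReal.add_le_add_iff_left h2]
    calc 2⁻¹ * a + 2⁻¹ * a = a := h1.symm
      _ ≤ _ := h
  calc a = 2 * (2⁻¹ * a) := by
        rw [← mul_assoc, ENNReal.mul_inv_cancel (by norm_num) (by norm_num), one_mul]
    _ ≤ 2 * b := by gcongr

/-- `log 2`. -/
noncomputable def bb : ℝ≥0∞ := ENNReal.ofReal (Real.log 2)

theorem bb_eq : ENNReal.ofReal (-Real.log (1 / 2)) = bb := by
  unfold bb; rw [one_div, Real.log_inv, neg_neg]

theorem bb_eq4 : ENNReal.ofReal (-Real.log (1 / 4)) = 2 * bb := by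
  unfold bb
  have : -Real.log (1 / 4) = 2 * Real.log 2 := by
    rw [one_div, Real.log_inv, neg_neg, show (4 : ℝ) = 2 ^ 2 by norm_num, Real.log_pow]; norm_num
  rw [this, ENNReal.ofReal_mul (by norm_num)]; norm_num

/-- Truncated potential. -/
noncomputable def UT (μ : Measure ℝ) (T : ℝ≥0∞) (x : ℝ) : ℝ≥0∞ := ∫⁻ y, min (ker (x - y)) T ∂μ

theorem meas_kT (T : ℝ≥0∞) (x : ℝ) : Measurable fun y => min (ker (x - y)) T :=
  (measurable_ker.comp (measurable_const.sub measurable_id)).min measurable_const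

section

variable {μ : Measure ℝ} (hμ : IsMinkowski μ)

include hμ

theorem UT_le (T : ℝ≥0∞) (x : ℝ) : UT μ T x ≤ T := by
  have := hμ.prob
  calc UT μ T x ≤ ∫⁻ _, T ∂μ := lintegral_mono fun y => min_le_right _ _
    _ = T := by simp

/-- Combining the two branches. -/
theorem UT_branch (T : ℝ≥0∞) (x : ℝ) {A B : ℝ≥0∞}
    (hA : ∫⁻ y, min (ker (x - f0 y)) T ∂μ ≤ A) (hB : ∫⁻ y, min (ker (x - f1 y)) T ∂μ ≤ B) :
    UT μ T x ≤ 2⁻¹ * A + 2⁻¹ * B := by
  unfold UT
  rw [hμ.lint (meas_kT T x)]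
  gcongr

theorem lint_shift (T : ℝ≥0∞) (s : ℝ) (b : ℝ≥0∞) (F : ℝ → ℝ≥0∞)
    (h : ∀ y ∈ Icc (0 : ℝ) 1, F y ≤ min (ker (s - y)) T + b) :
    ∫⁻ y, F y ∂μ ≤ UT μ T s + b := by
  have := hμ.prob
  calc ∫⁻ y, F y ∂μ ≤ ∫⁻ y, (min (ker (s - y)) T + b) ∂μ := by
        apply lintegral_mono_ae
        filter_upwards [hμ.ae_mem] with y hy using h y hy
    _ = UT μ T s + b := by
        rw [lintegral_add_right _ measurable_const]
        simp [UT]

theorem lint_const (b : ℝ≥0∞) (F : ℝ → ℝ≥0∞)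
    (h : ∀ y ∈ Icc (0 : ℝ) 1, F y ≤ b) :
    ∫⁻ y, F y ∂μ ≤ b := by
  have := hμ.prob
  calc ∫⁻ y, F y ∂μ ≤ ∫⁻ y, b ∂μ := by
        apply lintegral_mono_ae
        filter_upwards [hμ.ae_mem] with y hy using h y hy
    _ = b := by simp

theorem UT_zero {T : ℝ≥0∞} (hT : T ≠ ⊤) : UT μ T 0 ≤ 2 * bb := by
  apply half_lemma (ne_top_of_le_ne_top hT (UT_le hμ T 0))
  have h1 : UT μ T 0 ≤ 2⁻¹ * (UT μ T 0 + bb) + 2⁻¹ * bb := by
    apply UT_branch hμ
    · apply lint_shift hμ
      intro y hy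
      have h0 := hy.1
      have := hy.2
      rw [← bb_eq]
      apply kT_le T (by norm_num)
      unfold f0
      rw [zero_sub, zero_sub, abs_neg, abs_neg, abs_of_nonneg h0, abs_of_nonneg (by positivity),
        le_div_iff₀ (by linarith)]
      nlinarith
    · apply lint_const hμ
      intro y hy
      have h0 := hy.1
      have := hy.2
      rw [← bb_eq]
      refine (min_le_left _ _).trans (ker_le' (by norm_num) ?_)
      unfold f1
      rw [zero_sub, abs_neg, abs_of_nonneg (by positivity)]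
      apply one_div_le_one_div_of_le <;> linarith
  calc UT μ T 0 ≤ _ := h1
    _ = 2⁻¹ * UT μ T 0 + (2⁻¹ * bb + 2⁻¹ * bb) := by rw [mul_add, add_assoc]
    _ = _ := by rw [← add_mul, ENNReal.inv_two_add_inv_two, one_mul]

theorem UT_one {T : ℝ≥0∞} (hT : T ≠ ⊤) : UT μ T 1 ≤ 2 * bb := by
  have h1 : UT μ T 1 ≤ 2⁻¹ * bb + 2⁻¹ * (UT μ T 0 + bb) := by
    apply UT_branch hμ
    · apply lint_const hμ
      intro y hy
      have h0 := hy.1
      have := hy.2
      rw [← bb_eq]
      refine (min_le_left _ _).trans (ker_le' (by norm_num) ?_)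
      unfold f0
      have e : 1 - y / (1 + y) = 1 / (1 + y) := by field_simp; ring
      rw [e, abs_of_nonneg (by positivity)]
      apply one_div_le_one_div_of_le <;> linarith
    · apply lint_shift hμ
      intro y hy
      have h0 := hy.1
      have := hy.2
      rw [← bb_eq]
      apply kT_le T (by norm_num)
      unfold f1
      have e : 1 - 1 / (1 + y) = y / (1 + y) := by field_simp; ring
      rw [e, zero_sub, abs_neg, abs_of_nonneg h0, abs_of_nonneg (by positivity),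
        le_div_iff₀ (by linarith)]
      nlinarith
  calc UT μ T 1 ≤ _ := h1
    _ ≤ 2⁻¹ * bb + 2⁻¹ * (2 * bb + bb) := by gcongr; exact UT_zero hμ hT
    _ = (2⁻¹ * 4) * bb := by ring
    _ = 2 * bb := by
        congr 1
        rw [show (4 : ℝ≥0∞) = 2 * 2 by norm_num, ← mul_assoc,
          ENNReal.inv_mul_cancel (by norm_num) (by norm_num), one_mul]

theorem f0_sub {s y : ℝ} (hs : s ∈ Icc (0 : ℝ) 1) (hy : y ∈ Icc (0 : ℝ) 1) :
    |f0 s - f0 y| * ((1 + s) * (1 + y)) = |s - y| := by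
  have h1 : 0 < 1 + s := by linarith [hs.1]
  have h2 : 0 < 1 + y := by linarith [hy.1]
  have : f0 s - f0 y = (s - y) / ((1 + s) * (1 + y)) := by
    unfold f0; field_simp; ring
  rw [this, abs_div, abs_of_pos (mul_pos h1 h2), div_mul_cancel₀ _ (mul_pos h1 h2).ne']

theorem f1_sub {s y : ℝ} (hs : s ∈ Icc (0 : ℝ) 1) (hy : y ∈ Icc (0 : ℝ) 1) :
    |f1 s - f1 y| * ((1 + s) * (1 + y)) = |s - y| := by
  have h1 : 0 < 1 + s := by linarith [hs.1]
  have h2 : 0 < 1 + y := by linarith [hy.1]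
  have : f1 s - f1 y = -((s - y) / ((1 + s) * (1 + y))) := by
    unfold f1; field_simp; ring
  rw [this, abs_neg, abs_div, abs_of_pos (mul_pos h1 h2), div_mul_cancel₀ _ (mul_pos h1 h2).ne']

theorem quarter {s y A B : ℝ} (hs : s ∈ Icc (0 : ℝ) 1) (hy : y ∈ Icc (0 : ℝ) 1) (hA : 0 ≤ A)
    (h : A * ((1 + s) * (1 + y)) = B) : 1 / 4 * B ≤ A := by
  have h1 := hs.1
  have h2 := hy.1
  have h3 : (1 + s) * (1 + y) ≤ 4 := by nlinarith [hs.2, hy.2]
  nlinarith

theorem UT_all {T : ℝ≥0∞} (hT : T ≠ ⊤) {x : ℝ} (hx : x ∈ Icc (0 : ℝ) 1) : UT μ T x ≤ 6 * bb := by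
  set S : ℝ≥0∞ := ⨆ x : Icc (0 : ℝ) 1, UT μ T x with hS
  have hle : ∀ x ∈ Icc (0 : ℝ) 1, UT μ T x ≤ S := fun x hx =>
    le_iSup (fun x : Icc (0 : ℝ) 1 => UT μ T x) ⟨x, hx⟩
  have hST : S ≠ ⊤ := by
    apply ne_top_of_le_ne_top hT
    exact iSup_le fun x => UT_le hμ T x
  have h6 : S ≤ 2 * (3 * bb) := by
    apply half_lemma hST
    apply iSup_le
    rintro ⟨x, hx⟩
    have key : ∃ s ∈ Icc (0 : ℝ) 1, UT μ T x ≤ 2⁻¹ * (UT μ T s + 2 * bb) + 2⁻¹ * (UT μ T 1 + 2 * bb) := by
      by_cases h : x ≤ 1 / 2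
      · have h1x : 0 < 1 - x := by linarith
        set s := x / (1 - x) with hs
        have hs0 : 0 ≤ s := div_nonneg hx.1 h1x.le
        have hs1 : s ≤ 1 := by rw [hs, div_le_one h1x]; linarith
        have hxs : x = f0 s := by unfold f0; rw [hs]; field_simp; ring
        refine ⟨s, ⟨hs0, hs1⟩, ?_⟩
        apply UT_branch hμ
        · apply lint_shift hμ
          intro y hy
          rw [← bb_eq4]
          apply kT_le T (by norm_num)
          rw [hxs]
          exact quarter hμ ⟨hs0, hs1⟩ hy (abs_nonneg _) (f0_sub hμ ⟨hs0, hs1⟩ hy)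
        · apply lint_shift hμ
          intro y hy
          rw [← bb_eq4]
          have e : f1 1 = 1 / 2 := by unfold f1; norm_num
          have e2 : 1 / 2 ≤ f1 y := by
            unfold f1; apply one_div_le_one_div_of_le <;> linarith [hy.1, hy.2]
          apply kT_le T (by norm_num)
          have h3 := quarter hμ (s := 1) ⟨zero_le_one, le_rfl⟩ hy (abs_nonneg _) (f1_sub hμ ⟨zero_le_one, le_rfl⟩ hy)
          refine h3.trans ?_
          rw [e, abs_of_nonpos (by linarith), abs_of_nonpos (by linarith)]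
          linarith
      · push Not at h
        have h0x : 0 < x := by linarith
        set s := (1 - x) / x with hs
        have hs0 : 0 ≤ s := div_nonneg (by linarith [hx.2]) h0x.le
        have hs1 : s ≤ 1 := by rw [hs, div_le_one h0x]; linarith
        have hxs : x = f1 s := by unfold f1; rw [hs]; field_simp; ring
        refine ⟨s, ⟨hs0, hs1⟩, ?_⟩
        rw [add_comm]
        apply UT_branch hμ
        · apply lint_shift hμ
          intro y hy
          rw [← bb_eq4]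
          have e : f0 1 = 1 / 2 := by unfold f0; norm_num
          have e2 : f0 y ≤ 1 / 2 := by
            unfold f0; rw [div_le_div_iff₀ (by linarith [hy.1]) (by norm_num)]; linarith [hy.2]
          apply kT_le T (by norm_num)
          have h3 := quarter hμ (s := 1) ⟨zero_le_one, le_rfl⟩ hy (abs_nonneg _) (f0_sub hμ ⟨zero_le_one, le_rfl⟩ hy)
          refine h3.trans ?_
          rw [e, abs_of_nonneg (by linarith), abs_of_nonneg (by linarith)]
          linarith
        · apply lint_shift hμ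
          intro y hy
          rw [← bb_eq4]
          apply kT_le T (by norm_num)
          rw [hxs]
          exact quarter hμ ⟨hs0, hs1⟩ hy (abs_nonneg _) (f1_sub hμ ⟨hs0, hs1⟩ hy)
    obtain ⟨s, hs, h⟩ := key
    calc UT μ T x ≤ _ := h
      _ ≤ 2⁻¹ * (S + 2 * bb) + 2⁻¹ * (2 * bb + 2 * bb) := by
          gcongr
          · exact hle s hs
          · exact UT_one hμ hT
      _ = 2⁻¹ * S + (2⁻¹ * 6) * bb := by ring
      _ = 2⁻¹ * S + 3 * bb := by
          congr 2
          rw [show (6 : ℝ≥0∞) = 2 * 3 by norm_num, ← mul_assoc,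
            ENNReal.inv_mul_cancel (by norm_num) (by norm_num), one_mul]
  calc UT μ T x ≤ S := hle x hx
    _ ≤ 2 * (3 * bb) := h6
    _ = 6 * bb := by ring

/-- The potential of the Minkowski measure is bounded. -/
theorem pot_bound {x : ℝ} (hx : x ∈ Icc (0 : ℝ) 1) : ∫⁻ y, ker (x - y) ∂μ ≤ 6 * bb := by
  have h1 : ∀ a : ℝ≥0∞, ⨆ n : ℕ, min a (n : ℝ≥0∞) = a := by
    intro a
    have := inf_iSup_eq a (fun n : ℕ => (n : ℝ≥0∞))
    rw [ENNReal.iSup_natCast, inf_top_eq] at this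
    exact this.symm
  have h2 : ∫⁻ y, ker (x - y) ∂μ = ⨆ n : ℕ, ∫⁻ y, min (ker (x - y)) (n : ℝ≥0∞) ∂μ := by
    rw [← lintegral_iSup (fun n => meas_kT _ x)]
    · simp_rw [h1]
    · intro m n hmn y
      exact min_le_min le_rfl (by exact_mod_cast hmn)
  rw [h2]
  apply iSup_le
  intro n
  exact UT_all hμ (ENNReal.natCast_ne_top n) hx

end

end Pool.Agent.X83.QM
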