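import Pool.Agent.X83.QM.Defs

open MeasureTheory Filter Topology Set
open scoped ENNReal

namespace Pool.Agent.X83.QM

theorem gauss_zero : gauss 0 = 0 := by simp [gauss]

theorem gauss_nonneg (x : ℝ) : 0 ≤ gauss x := Int.fract_nonneg _

theorem gauss_lt (x : ℝ) : gauss x < 1 := Int.fract_lt_one _

theorem iter_zero (k : ℕ) : gauss^[k] 0 = 0 := Function.iterate_fixed gauss_zero k

open scoped Classical in
/-- The terms of the series. -/
noncomputable def tm (x : ℝ) (k : ℕ) : ℝ :=
  if gauss^[k] x = 0 then 0 else (-1 : ℝ) ^ k / 2 ^ (∑ i ∈ Finset.range (k + 1), digit x i)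

theorem qm_eq (x : ℝ) : qm x = 2 * ∑' k, tm x k := rfl

theorem iter_mem {x : ℝ} (hx : x ∈ Icc (0 : ℝ) 1) (k : ℕ) : gauss^[k] x ∈ Icc (0 : ℝ) 1 := by
  cases k with
  | zero => exact hx
  | succ k =>
    rw [Function.iterate_succ_apply']
    exact ⟨gauss_nonneg _, (gauss_lt _).le⟩

theorem iter_ne {x : ℝ} {k i : ℕ} (h : gauss^[k] x ≠ 0) (hi : i ≤ k) : gauss^[i] x ≠ 0 := by
  intro h0
  apply h
  obtain ⟨j, rfl⟩ := Nat.exists_eq_add_of_le hi
  rw [Nat.add_comm, Function.iterate_add_apply, h0, iter_zero]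

theorem one_le_digit {x : ℝ} (hx : x ∈ Icc (0 : ℝ) 1) {i : ℕ} (h : gauss^[i] x ≠ 0) :
    1 ≤ digit x i := by
  unfold digit
  have h1 := iter_mem hx i
  have h2 : 0 < gauss^[i] x := lt_of_le_of_ne h1.1 (Ne.symm h)
  rw [Nat.one_le_floor_iff]
  exact (one_le_inv₀ h2).2 h1.2

theorem tm_abs {x : ℝ} (hx : x ∈ Icc (0 : ℝ) 1) (k : ℕ) : |tm x k| ≤ (1 / 2) ^ k := by
  classical
  unfold tm
  split_ifs with h
  · simp
  · rw [abs_div, abs_pow, abs_neg, abs_one, one_pow, abs_of_pos (by positivity)]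
    rw [one_div, one_div, inv_pow]
    apply inv_anti₀ (by positivity)
    apply pow_le_pow_right₀ (by norm_num)
    calc k ≤ ∑ i ∈ Finset.range (k + 1), 1 := by simp
      _ ≤ _ := by
        apply Finset.sum_le_sum
        intro i hi
        exact one_le_digit hx (iter_ne h (by rw [Finset.mem_range] at hi; omega))

theorem tm_summable {x : ℝ} (hx : x ∈ Icc (0 : ℝ) 1) : Summable (tm x) := by
  apply Summable.of_norm_bounded (summable_geometric_of_lt_one (by norm_num) (by norm_num :
    (1 / 2 : ℝ) < 1))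
  exact fun k => tm_abs hx k

theorem qm_zero : qm 0 = 0 := by
  rw [qm_eq]
  have : ∀ k, tm 0 k = 0 := fun k => if_pos (iter_zero k)
  simp [this]

/-- First functional equation. -/
theorem qm_f0 {x : ℝ} (hx : x ∈ Icc (0 : ℝ) 1) : qm (x / (1 + x)) = qm x / 2 := by
  rcases eq_or_lt_of_le hx.1 with h0 | h0
  · rw [← h0]; simp [qm_zero]
  · set y := x / (1 + x) with hy
    have hyi : y⁻¹ = x⁻¹ + 1 := by rw [hy]; field_simp
    have hT : gauss y = gauss x := by
      unfold gauss; rw [hyi, Int.fract_add_one]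
    have hy0 : y ≠ 0 := by rw [hy]; positivity
    have hTk : ∀ k, gauss^[k + 1] y = gauss^[k + 1] x := fun k => by
      rw [Function.iterate_succ_apply, Function.iterate_succ_apply, hT]
    have hd0 : digit y 0 = digit x 0 + 1 := by
      unfold digit
      rw [Function.iterate_zero_apply, Function.iterate_zero_apply, hyi]
      exact Nat.floor_add_one (by positivity)
    have hdk : ∀ k, digit y (k + 1) = digit x (k + 1) := fun k => by
      unfold digit; rw [hTk]
    have hsum : ∀ k, ∑ i ∈ Finset.range (k + 1), digit y i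
        = (∑ i ∈ Finset.range (k + 1), digit x i) + 1 := by
      intro k
      rw [Finset.sum_range_succ', Finset.sum_range_succ', hd0]
      have : ∑ i ∈ Finset.range k, digit y (i + 1) = ∑ i ∈ Finset.range k, digit x (i + 1) :=
        Finset.sum_congr rfl fun i _ => hdk i
      rw [this]; ring
    have ht : ∀ k, tm y k = tm x k / 2 := by
      intro k
      have hz : gauss^[k] y = 0 ↔ gauss^[k] x = 0 := by
        cases k with
        | zero => exact ⟨fun h => absurd h hy0, fun h => absurd h h0.ne'⟩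
        | succ k => rw [hTk]
      unfold tm
      by_cases h : gauss^[k] x = 0
      · rw [if_pos h, if_pos (hz.2 h), zero_div]
      · rw [if_neg h, if_neg (fun h' => h (hz.1 h')), hsum, pow_succ]
        field_simp
    rw [qm_eq, qm_eq]
    simp_rw [ht]
    rw [tsum_div_const]; ring

/-- Second functional equation, away from the end. -/
theorem qm_f1' {x : ℝ} (hx : x ∈ Ico (0 : ℝ) 1) : qm (1 / (1 + x)) = 1 - qm x / 2 := by
  set y := 1 / (1 + x) with hy
  have h1x : 0 < 1 + x := by linarith [hx.1]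
  have hyi : y⁻¹ = x + 1 := by rw [hy, one_div, inv_inv]; ring
  have hy0 : y ≠ 0 := by rw [hy]; positivity
  have hT : gauss y = x := by
    unfold gauss
    rw [hyi, Int.fract_add_one, Int.fract_eq_self.2 ⟨hx.1, hx.2⟩]
  have hTk : ∀ k, gauss^[k + 1] y = gauss^[k] x := fun k => by
    rw [Function.iterate_succ_apply, hT]
  have hd0 : digit y 0 = 1 := by
    unfold digit
    rw [Function.iterate_zero_apply, hyi, Nat.floor_add_one hx.1, Nat.floor_eq_zero.2 hx.2]
  have hdk : ∀ k, digit y (k + 1) = digit x k := fun k => by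
    unfold digit; rw [hTk]
  have hsum : ∀ k, ∑ i ∈ Finset.range (k + 1 + 1), digit y i
      = (∑ i ∈ Finset.range (k + 1), digit x i) + 1 := by
    intro k
    rw [Finset.sum_range_succ', hd0]
    have : ∑ i ∈ Finset.range (k + 1), digit y (i + 1) = ∑ i ∈ Finset.range (k + 1), digit x i :=
      Finset.sum_congr rfl fun i _ => hdk i
    rw [this]
  have ht0 : tm y 0 = 1 / 2 := by
    unfold tm
    rw [Function.iterate_zero_apply, if_neg hy0]
    simp [hd0]
  have ht : ∀ k, tm y (k + 1) = -(tm x k / 2) := by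
    intro k
    unfold tm
    rw [hTk]
    by_cases h : gauss^[k] x = 0
    · rw [if_pos h, if_pos h]; simp
    · rw [if_neg h, if_neg h, hsum, pow_succ, pow_succ]
      field_simp
  have hymem : y ∈ Icc (0 : ℝ) 1 := by
    rw [hy]
    exact ⟨by positivity, by rw [div_le_one h1x]; linarith [hx.1]⟩
  rw [qm_eq, qm_eq, (tm_summable hymem).tsum_eq_zero_add, ht0]
  simp_rw [ht]
  rw [tsum_neg, tsum_div_const]; ring

theorem qm_one : qm 1 = 1 := by
  have h := qm_f1' (x := 0) ⟨le_rfl, one_pos⟩
  rw [qm_zero] at h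
  simpa using h

/-- Second functional equation. -/
theorem qm_f1 {x : ℝ} (hx : x ∈ Icc (0 : ℝ) 1) : qm (1 / (1 + x)) = 1 - qm x / 2 := by
  rcases eq_or_lt_of_le hx.2 with h1 | h1
  · subst h1
    have h := qm_f0 (x := 1) ⟨zero_le_one, le_rfl⟩
    rw [h, qm_one]; norm_num
  · exact qm_f1' ⟨hx.1, h1⟩

end Pool.Agent.X83.QM
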