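import Pool.Agent.X83.QM.Node

open MeasureTheory Filter Topology Set
open scoped ENNReal

namespace Pool.Agent.X83.QM

/-- The majorant. -/
noncomputable def FF (δ M : ℝ) (A : ℝ≥0∞) (x y : ℝ) : ℝ≥0∞ :=
  ker (x - y) + ENNReal.ofReal (1 / M) +
    indicator (Icc (x - (M + 1) * δ) (x + (M + 1) * δ)) (fun _ => A) y

/-- The conclusion of the recursion. -/
def Good (μ ω : Measure ℝ) (δ M : ℝ) (A : ℝ≥0∞) (I : Set ℝ) (ρ : Measure ℝ) : Prop :=
  ρ univ = ω I ∧ ρ (Icc 0 1)ᶜ = 0 ∧ (∃ W : ℝ≥0∞, W ≠ ⊤ ∧ ρ ≤ W • μ) ∧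
    ∀ x, ∫⁻ y, ker (x - y) ∂ρ ≤ ∫⁻ y in I, FF δ M A x y ∂ω

section

variable {μ : Measure ℝ} (hμ : IsMinkowski μ) (ω : Measure ℝ) [IsFiniteMeasure ω]
  [NullSingletonClass ω] {δ M : ℝ} (hδ : 0 < δ) (hM : 0 < M) {A : ℝ≥0∞}
  (hA : 6 * bb + ENNReal.ofReal (2 * Real.log (2 / δ)) ≤ A)

include hμ hδ hM hA

omit [NullSingletonClass ω] in
theorem leaf {Φ : ℝ → ℝ} {d e : ℝ} (h : Node μ Φ d e) (hde : 1 / (d * e) ≤ δ)
    (hd : d ≤ 2 / δ) (he : e ≤ 2 / δ) :
    Good μ ω δ M A (uIcc (Φ 0) (Φ 1)) (ω (uIcc (Φ 0) (Φ 1)) • μ.map Φ) := by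
  have := hμ.prob
  have hdiam : ∀ y ∈ uIcc (Φ 0) (Φ 1), ∀ z ∈ uIcc (Φ 0) (Φ 1), |y - z| ≤ δ := by
    intro y hy z hz
    have h1 := abs_sub_le_of_uIcc_subset_uIcc (uIcc_subset_uIcc hz hy)
    rw [abs_sub_comm (Φ 1) (Φ 0), h.len] at h1
    exact h1.trans hde
  refine ⟨?_, ?_, ?_, ?_⟩
  · rw [Measure.smul_apply, Measure.map_apply h.meas MeasurableSet.univ]
    simp
  · rw [Measure.smul_apply, Measure.map_apply h.meas measurableSet_Icc.compl]
    have : μ (Φ ⁻¹' (Icc 0 1)ᶜ) = 0 := by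
      apply measure_mono_null _ hμ.2.1
      intro y hy hy'
      exact hy (h.maps y hy')
    rw [this]; simp
  · obtain ⟨W, hW, hle⟩ := h.dom
    refine ⟨ω (uIcc (Φ 0) (Φ 1)) * W, ENNReal.mul_ne_top (measure_ne_top _ _) hW, ?_⟩
    rw [← smul_smul]
    gcongr
  · intro x
    have hk : Measurable fun y => ker (x - y) :=
      measurable_ker.comp (measurable_const.sub measurable_id)
    rw [lintegral_smul_measure, lintegral_map hk h.meas, smul_eq_mul]
    have hconst : ∀ J : ℝ≥0∞, ω (uIcc (Φ 0) (Φ 1)) * J = ∫⁻ _ in uIcc (Φ 0) (Φ 1), J ∂ω := by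
      intro J; rw [setLIntegral_const, mul_comm]
    rw [hconst]
    by_cases hn : ∃ y₀ ∈ uIcc (Φ 0) (Φ 1), |x - y₀| ≤ M * δ
    · obtain ⟨y₀, hy₀, hxy⟩ := hn
      apply setLIntegral_mono' measurableSet_uIcc
      intro y hy
      refine ((h.pot hμ hd he x).trans hA).trans ?_
      unfold FF
      have h1 : |x - y| ≤ (M + 1) * δ := by
        have h2 := hdiam y₀ hy₀ y hy
        have h3 := abs_sub_le x y₀ y
        linarith
      rw [abs_le] at h1
      have hyI : y ∈ Icc (x - (M + 1) * δ) (x + (M + 1) * δ) :=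
        ⟨by linarith [h1.2], by linarith [h1.1]⟩
      rw [indicator_of_mem hyI]
      exact le_add_self
    · push Not at hn
      apply setLIntegral_mono' measurableSet_uIcc
      intro y hy
      have h1 : ∫⁻ t, ker (x - Φ t) ∂μ ≤ ∫⁻ t, (ker (x - y) + ENNReal.ofReal (1 / M)) ∂μ := by
        apply lintegral_mono_ae
        filter_upwards [hμ.ae_mem] with t ht
        have h2 := h.mem ht
        have h3 := hn _ h2
        have h4 := hdiam (Φ t) h2 y hy
        have h5 := abs_sub_le x (Φ t) y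
        have h6 : M / (M + 1) * |x - y| ≤ |x - Φ t| := by
          rw [div_mul_eq_mul_div, div_le_iff₀ (by linarith)]
          nlinarith
        refine (ker_le (by positivity) h6).trans ?_
        gcongr
        rw [← Real.log_inv, inv_div]
        refine (Real.log_le_sub_one_of_pos (by positivity)).trans ?_
        rw [add_div, div_self hM.ne']
        linarith
      refine h1.trans ?_
      rw [lintegral_const, measure_univ, mul_one]
      unfold FF
      exact le_self_add

theorem recn (N : ℕ) : ∀ (Φ : ℝ → ℝ) (d e : ℝ), Node μ Φ d e → 1 / δ ≤ d + e - 1 + N →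
    d ≤ 2 / δ → e ≤ 2 / δ → ∃ ρ, Good μ ω δ M A (uIcc (Φ 0) (Φ 1)) ρ := by
  induction N with
  | zero =>
    intro Φ d e h h1 hd he
    refine ⟨_, leaf hμ ω hδ hM hA h ?_ hd he⟩
    have h2 := h.hd
    have h3 := h.he
    rw [div_le_iff₀ (by nlinarith)]
    rw [div_le_iff₀ hδ] at h1
    push_cast at h1
    have : d + e - 1 ≤ d * e := by nlinarith
    nlinarith
  | succ N ih =>
    intro Φ d e h h1 hd he
    have h2 := h.hd
    have h3 := h.he
    by_cases hde : 1 / (d * e) ≤ δ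
    · exact ⟨_, leaf hμ ω hδ hM hA h hde hd he⟩
    push Not at hde
    rw [lt_div_iff₀ (by nlinarith)] at hde
    push_cast at h1
    have hd' : d ≤ 1 / δ := by
      rw [le_div_iff₀ hδ]; nlinarith
    have he' : e ≤ 1 / δ := by
      rw [le_div_iff₀ hδ]; nlinarith
    have hde' : d + e ≤ 2 / δ := by
      have : 2 / δ = 1 / δ + 1 / δ := by ring
      linarith
    obtain ⟨ρ₀, a1, a2, ⟨W, hW, a3⟩, a4⟩ := ih _ _ _ (h.child0 hμ) (by linarith) hd hde'
    obtain ⟨ρ₁, b1, b2, ⟨V, hV, b3⟩, b4⟩ := ih _ _ _ (h.child1 hμ) (by linarith) he hde'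
    have e0 : f0 0 = 0 := by unfold f0; norm_num
    have e1 : f0 1 = 1 / 2 := by unfold f0; norm_num
    have e2 : f1 0 = 1 := by unfold f1; norm_num
    have e3 : f1 1 = 1 / 2 := by unfold f1; norm_num
    simp only [Function.comp, e0, e1, e2, e3] at a1 a4 b1 b4
    have hres := h.restrict ω
    refine ⟨ρ₀ + ρ₁, ?_, ?_, ⟨W + V, by simp [hW, hV], ?_⟩, ?_⟩
    · have := congrArg (fun ν : Measure ℝ => ν univ) hres
      simp only [Measure.coe_add, Pi.add_apply, Measure.restrict_apply_univ] at this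
      rw [Measure.coe_add, Pi.add_apply, a1, b1, this]
    · simp [a2, b2]
    · rw [add_smul]; gcongr
    · intro x
      rw [lintegral_add_measure, hres, lintegral_add_measure]
      exact add_le_add (a4 x) (b4 x)

end

/-- The comparison construction. -/
theorem exists_cmp {μ : Measure ℝ} (hμ : IsMinkowski μ) (ω : Measure ℝ) [IsProbabilityMeasure ω]
    [NullSingletonClass ω] (hω : ω (Icc 0 1)ᶜ = 0)
    (hp : ∀ x ∈ Icc (0 : ℝ) 1, ∫⁻ y, ker (x - y) ∂ω ≤ 2 * bb)
    (hs : ∀ a b : ℝ, a ≤ b → ω (Icc a b) ≤ ENNReal.ofReal (√(b - a))) {ε : ℝ} (hε : 0 < ε) :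
    ∃ ρ : Measure ℝ, IsProbabilityMeasure ρ ∧ ρ (Icc 0 1)ᶜ = 0 ∧
      (∃ W : ℝ≥0∞, W ≠ ⊤ ∧ ρ ≤ W • μ) ∧
      ∀ x ∈ Icc (0 : ℝ) 1, ∫⁻ y, ker (x - y) ∂ρ ≤ 2 * bb + ENNReal.ofReal ε := by
  set M : ℝ := 2 / ε with hMd
  have hM : 0 < M := by positivity
  set C : ℝ := 6 * Real.log 2 with hC
  have hC0 : 0 ≤ C := by have := Real.log_nonneg (x := 2) (by norm_num); positivity
  set K : ℝ := √(4 * (M + 1)) * (C + 8) with hK
  have hK0 : 0 < K := by
    have : 0 < √(4 * (M + 1)) := Real.sqrt_pos.2 (by linarith)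
    have : 0 < C + 8 := by linarith
    positivity
  set t : ℝ := min 1 (ε / (2 * K)) with ht
  have ht0 : 0 < t := lt_min one_pos (by positivity)
  have ht1 : t ≤ 1 := min_le_left _ _
  have htK : K * t ≤ ε / 2 := by
    calc K * t ≤ K * (ε / (2 * K)) := by gcongr; exact min_le_right _ _
      _ = ε / 2 := by field_simp
  set δ : ℝ := 2 * t ^ 4 with hδd
  have hδ : 0 < δ := by positivity
  have h2δ : 2 / δ = (1 / t) ^ 4 := by rw [hδd]; field_simp
  set A : ℝ≥0∞ := 6 * bb + ENNReal.ofReal (2 * Real.log (2 / δ)) with hA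
  obtain ⟨N, hN⟩ := exists_nat_ge (1 / δ)
  by_cases hδ2 : 2 / δ < 1
  · exfalso
    rw [h2δ] at hδ2
    have : 1 ≤ 1 / t := by rw [le_div_iff₀ ht0]; linarith
    have := one_le_pow₀ this (n := 4)
    linarith
  push Not at hδ2
  obtain ⟨ρ, r1, r2, r3, r4⟩ := recn hμ ω hδ hM le_rfl N id 1 1 (node_root μ)
    (by linarith) hδ2 hδ2
  have hI : uIcc (id (0 : ℝ)) (id 1) = Icc 0 1 := by
    rw [id, id, uIcc_of_le zero_le_one]
  rw [hI] at r1 r4
  have hω1 : ω (Icc 0 1) = 1 := by
    rw [← prob_compl_eq_zero_iff measurableSet_Icc]; exact hω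
  refine ⟨ρ, ⟨by rw [r1, hω1]⟩, r2, r3, ?_⟩
  intro x hx
  refine (r4 x).trans ?_
  have hmI : MeasurableSet (Icc (x - (M + 1) * δ) (x + (M + 1) * δ)) := measurableSet_Icc
  calc ∫⁻ y in Icc 0 1, FF δ M A x y ∂ω ≤ ∫⁻ y, FF δ M A x y ∂ω := setLIntegral_le_lintegral _ _
    _ = ∫⁻ y, ker (x - y) ∂ω + ENNReal.ofReal (1 / M) +
        A * ω (Icc (x - (M + 1) * δ) (x + (M + 1) * δ)) := by
      unfold FF
      rw [lintegral_add_right _ (measurable_const.indicator hmI),
        lintegral_add_right _ measurable_const, lintegral_indicator_const hmI]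
      simp
    _ ≤ 2 * bb + ENNReal.ofReal (ε / 2) + ENNReal.ofReal (ε / 2) := by
      refine add_le_add (add_le_add (hp x hx) ?_) ?_
      · rw [hMd]; apply le_of_eq; congr 1; field_simp
      · have hlog : Real.log (2 / δ) ≤ 4 / t := by
          rw [h2δ, Real.log_pow]
          have := Real.log_le_sub_one_of_pos (x := 1 / t) (by positivity)
          have e : 4 / t = 4 * (1 / t) := by ring
          rw [e]; push_cast
          linarith
        have hA' : A ≤ ENNReal.ofReal (C + 8 / t) := by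
          rw [hA, hC, bb]
          rw [show (6 : ℝ≥0∞) = ENNReal.ofReal 6 by norm_num, ← ENNReal.ofReal_mul (by norm_num),
            ← ENNReal.ofReal_add (by rw [← hC]; exact hC0)
              (mul_nonneg (by norm_num) (Real.log_nonneg hδ2))]
          apply ENNReal.ofReal_le_ofReal
          have e : 8 / t = 2 * (4 / t) := by ring
          rw [e]
          linarith
        calc A * ω (Icc (x - (M + 1) * δ) (x + (M + 1) * δ))
            ≤ ENNReal.ofReal (C + 8 / t) * ENNReal.ofReal (√(x + (M + 1) * δ - (x - (M + 1) * δ))) := by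
              gcongr
              apply hs
              have : 0 < (M + 1) * δ := by positivity
              linarith
          _ = ENNReal.ofReal ((C + 8 / t) * √(x + (M + 1) * δ - (x - (M + 1) * δ))) := by
              rw [← ENNReal.ofReal_mul (by positivity)]
          _ ≤ ENNReal.ofReal (ε / 2) := by
              apply ENNReal.ofReal_le_ofReal
              have e1 : x + (M + 1) * δ - (x - (M + 1) * δ) = 4 * (M + 1) * (t ^ 2) ^ 2 := by
                rw [hδd]; ring
              rw [e1, Real.sqrt_mul (by positivity), Real.sqrt_sq (by positivity)]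
              refine le_trans ?_ htK
              rw [hK]
              have e2 : (C + 8 / t) * (√(4 * (M + 1)) * t ^ 2) =
                  √(4 * (M + 1)) * (C * t + 8) * t := by
                field_simp
              rw [e2]
              gcongr
              nlinarith
    _ = 2 * bb + ENNReal.ofReal ε := by
      rw [add_assoc, ← ENNReal.ofReal_add (by positivity) (by positivity), add_halves]

end Pool.Agent.X83.QM
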